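import Mathlib

/-!
# Multisets of ratios and permutations
-/

set_option autoImplicit false

namespace Pool.Agent.N840.FC

open Polynomial

section perm

variable {ι F : Type*} [Fintype ι]

/-- two families with the same values, counted with multiplicities, differ by a permutation -/
theorem exists_perm [DecidableEq F] (f g : ι → F)
    (h : Finset.univ.val.map f = Finset.univ.val.map g) :
    ∃ β : Equiv.Perm ι, ∀ i, f (β i) = g i := by
  classical
  have hc : ∀ μ : F, Fintype.card {i // g i = μ} = Fintype.card {i // f i = μ} := by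
    intro μ
    have h1 := congrArg (Multiset.count μ) h
    rw [Multiset.count_map, Multiset.count_map] at h1
    rw [Fintype.card_subtype, Fintype.card_subtype, Finset.card_def, Finset.card_def,
      Finset.filter_val, Finset.filter_val]
    simp only [eq_comm (a := μ)] at h1
    exact h1.symm
  let e : ι ≃ ι := (Equiv.sigmaFiberEquiv g).symm.trans
    ((Equiv.sigmaCongrRight fun μ => Fintype.equivOfCardEq (hc μ)).trans
      (Equiv.sigmaFiberEquiv f))
  refine ⟨e, fun i => ?_⟩
  have h2 : e i = ((Fintype.equivOfCardEq (hc (g i))) ⟨i, rfl⟩).1 := rfl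
  rw [h2]
  exact ((Fintype.equivOfCardEq (hc (g i))) ⟨i, rfl⟩).2

end perm

section ratio

variable {ι F : Type*} [Fintype ι] [Field F]

theorem roots_ratio (x y : ι → F) (hy : ∀ i, y i ≠ 0) :
    (∏ i, (C (x i) + X * C (y i))).roots = Finset.univ.val.map (fun i => -(x i / y i)) := by
  classical
  have h0 : ∀ i, (C (x i) + X * C (y i) : Polynomial F) ≠ 0 := by
    intro i h
    have := congrArg (fun q : Polynomial F => q.coeff 1) h
    simp at this
    exact hy i this
  rw [Polynomial.roots_prod _ _ (Finset.prod_ne_zero_iff.2 fun i _ => h0 i)]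
  have h1 : ∀ i, (C (x i) + X * C (y i) : Polynomial F).roots = {-(x i / y i)} := by
    intro i
    have e : (C (x i) + X * C (y i) : Polynomial F) = C (y i) * X + C (x i) := by ring
    rw [e, roots_C_mul_X_add_C _ (hy i)]
    congr 1
    field_simp
  simp only [h1]
  rw [Multiset.bind_singleton]

/-- if the products `∏ (x + t y)` and `∏ (x' + t y')` are equal for all `t ≠ 0`, then the ratios
are equal up to a permutation -/
theorem perm_of_prod [Infinite F] (x y x' y' : ι → F) (hy : ∀ i, y i ≠ 0)
    (hy' : ∀ i, y' i ≠ 0)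
    (h : ∀ t : F, t ≠ 0 → ∏ i, (x i + t * y i) = ∏ i, (x' i + t * y' i)) :
    ∃ β : Equiv.Perm ι, ∀ i, x (β i) / y (β i) = x' i / y' i := by
  classical
  have hp : (∏ i, (C (x i) + X * C (y i))) = ∏ i, (C (x' i) + X * C (y' i)) := by
    apply Polynomial.eq_of_infinite_eval_eq
    have : ({0}ᶜ : Set F).Infinite := (Set.finite_singleton 0).infinite_compl
    refine this.mono fun t ht => ?_
    have ht' : t ≠ 0 := ht
    have e := h t ht'
    simp only [Set.mem_ofPred_eq, eval_prod, eval_add, eval_mul, eval_C, eval_X]
    exact e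
  have hr := congrArg roots hp
  rw [roots_ratio x y hy, roots_ratio x' y' hy'] at hr
  obtain ⟨β, hβ⟩ := exists_perm (fun i => -(x i / y i)) (fun i => -(x' i / y' i)) hr
  exact ⟨β, fun i => neg_injective (hβ i)⟩

end ratio

section pigeon

variable {ι : Type*} [Fintype ι] [DecidableEq ι]

/-- two translates of a large set meet -/
theorem meet_two (T : Finset ι) (hT : Fintype.card ι < 2 * T.card) (β : Equiv.Perm ι) :
    ∃ i ∈ T, β i ∈ T := by
  by_contra hcon
  push Not at hcon
  have h1 : Disjoint T (T.map β.toEmbedding) := by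
    rw [Finset.disjoint_left]
    intro a ha hb
    obtain ⟨i, hi, rfl⟩ := Finset.mem_map.1 hb
    exact hcon i hi ha
  have h2 := Finset.card_le_univ (T ∪ T.map β.toEmbedding)
  rw [Finset.card_union_of_disjoint h1, Finset.card_map] at h2
  omega

/-- among many translates of a set two meet -/
theorem meet_many {κ : Type*} [Fintype κ] [DecidableEq κ] (T : Finset ι) (β : κ → Equiv.Perm ι)
    (hT : Fintype.card ι < Fintype.card κ * T.card) :
    ∃ a b : κ, a ≠ b ∧ ∃ i ∈ T, ∃ j ∈ T, β a i = β b j := by
  by_contra hcon
  push Not at hcon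
  have h1 : (Finset.univ : Finset κ).card * T.card =
      (Finset.univ.biUnion fun a : κ => T.map (β a).toEmbedding).card := by
    rw [Finset.card_biUnion]
    · simp
    · intro a _ b _ hab
      rw [Function.onFun, Finset.disjoint_left]
      intro c hc hc'
      obtain ⟨i, hi, rfl⟩ := Finset.mem_map.1 hc
      obtain ⟨j, hj, h⟩ := Finset.mem_map.1 hc'
      exact hcon a b hab i hi j hj h.symm
  have h2 := Finset.card_le_univ (Finset.univ.biUnion fun a : κ => T.map (β a).toEmbedding)
  rw [← h1, Finset.card_univ] at h2
  omega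

end pigeon

end Pool.Agent.N840.FC
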