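import Pool.Agent.N840.FC.One
import Pool.Agent.Y546.WQ.EvnQ
import Pool.Agent.Y702.WQ.IDEE

/-!
# Even exponents: the norm of `z - ζ y`, arbitrary residue fields at two
-/

set_option autoImplicit false

namespace Pool.Agent.N840.FC

open NumberField IsDedekindDomain Polynomial Pool.Agent.Y546.WQ

section

variable {p : ℕ} [Fact p.Prime] {E : Type} [Field E] [NumberField E]
  {K N : Type} [Field K] [NumberField K] [Field N] [NumberField N]

/-- `z - v y` is prime to two -/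
theorem evn_unit' (h5 : 5 ≤ p) (T : 𝓞 K →+* 𝓞 N) (v : 𝓞 N) (hv : IsPrimitiveRoot v p)
    (Q : Ideal (𝓞 N)) (hQ : Q.IsPrime) (h2Q : (2 : 𝓞 N) ∈ Q) {x y z : 𝓞 K}
    (h : x ^ (2 * p) + y ^ (2 * p) = z ^ (2 * p))
    (h4 : ¬ p ∣ Nat.card (𝓞 K ⧸ Q.comap T) - 1)
    (hn : ¬ (x ∈ Q.comap T ∧ y ∈ Q.comap T ∧ z ∈ Q.comap T)) : T z - v * T y ∉ Q := by
  intro hmem
  have hpp : p.Prime := Fact.out
  have hR : (Q.comap T).IsPrime := hQ.comap T
  have h2R : (2 : 𝓞 K) ∈ Q.comap T := by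
    rw [Ideal.mem_comap, map_ofNat]
    exact h2Q
  have hR0 : Q.comap T ≠ ⊥ := by
    intro h0
    rw [h0, Ideal.mem_bot] at h2R
    exact two_ne_zero h2R
  have hvQ : v ∉ Q := by
    intro h
    apply one_notMem Q hQ
    rw [← hv.pow_eq_one]
    exact Q.pow_mem_of_mem h p hpp.pos
  have hy : T y ∉ Q := by
    intro hy
    have hz : T z ∈ Q := by
      have := Q.add_mem hmem (Q.mul_mem_left v hy)
      rwa [sub_add_cancel] at this
    apply hn
    refine ⟨?_, hy, hz⟩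
    have hz' : z ∈ Q.comap T := hz
    have hy' : y ∈ Q.comap T := hy
    have e : x ^ (2 * p) = z ^ (2 * p) - y ^ (2 * p) := by rw [← h]; ring
    apply hR.mem_of_pow_mem (2 * p)
    rw [e]
    exact (Q.comap T).sub_mem (Ideal.pow_mem_of_mem _ hz' _ (by omega))
      (Ideal.pow_mem_of_mem _ hy' _ (by omega))
  have hz : T z ∉ Q := by
    intro hz
    have h1 : v * T y ∈ Q := by
      have := Q.sub_mem hz hmem
      rwa [sub_sub_cancel] at this
    rcases hQ.mem_or_mem h1 with h2 | h2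
    · exact hvQ h2
    · exact hy h2
  set n := Nat.card (𝓞 K ⧸ Q.comap T) - 1 with hn'
  have key : ∀ w : 𝓞 K, T w ∉ Q → (Ideal.Quotient.mk Q (T w)) ^ n = 1 := by
    intro w hw
    have hRm : (Q.comap T).IsMaximal := hR.isMaximal hR0
    let _ : Field (𝓞 K ⧸ Q.comap T) := Ideal.Quotient.field _
    have hfin : Finite (𝓞 K ⧸ Q.comap T) := Ideal.finiteQuotientOfFreeOfNeBot _ hR0
    have hft : Fintype (𝓞 K ⧸ Q.comap T) := Fintype.ofFinite _
    have h0 : Ideal.Quotient.mk (Q.comap T) w ≠ 0 := by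
      intro h0
      have h1 : w ∈ Q.comap T := Ideal.Quotient.eq_zero_iff_mem.1 h0
      exact hw h1
    have h1 := FiniteField.pow_card_sub_one_eq_one _ h0
    rw [← Nat.card_eq_fintype_card, ← hn', ← map_pow, ← map_one (Ideal.Quotient.mk (Q.comap T)),
      Ideal.Quotient.eq, Ideal.mem_comap, map_sub, map_pow, map_one] at h1
    rw [← map_pow, ← map_one (Ideal.Quotient.mk Q)]
    exact Ideal.Quotient.eq.2 h1
  have e1 := key y hy
  have e2 := key z hz
  have e3 : Ideal.Quotient.mk Q (T z) = Ideal.Quotient.mk Q v * Ideal.Quotient.mk Q (T y) := by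
    rw [← map_mul]
    exact Ideal.Quotient.eq.2 hmem
  rw [e3, mul_pow, e1, mul_one, ← map_pow] at e2
  have e4 : 1 - v ^ n ∈ Q := by
    rw [← Ideal.Quotient.eq_zero_iff_mem, map_sub, map_one, e2, sub_self]
  have h3 : IsPrimitiveRoot (v ^ n) p := by
    apply hv.pow_of_coprime
    exact ((Nat.Prime.coprime_iff_not_dvd hpp).2 h4).symm
  have h6 := p_mem_of_one_sub_mem (v ^ n) h3 Q e4
  have h7 := int_notMem Q hQ 2 Nat.prime_two (by exact_mod_cast h2Q) (p : ℤ) (by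
    intro h
    have h9 : 2 ∣ p := by exact_mod_cast h
    have := (Nat.prime_dvd_prime_iff_eq Nat.prime_two hpp).1 h9
    omega)
  exact h7 (by exact_mod_cast h6)

/-- the valuations of the norm of `z - ζ y` -/
theorem fldE' (hI : S_IDEE) (h5 : 5 ≤ p) (c : Cyc p E) (i : E →+* N)
    (hD : Dn p E N i) {x y z : 𝓞 K} (hx : x ≠ 0) (hy : y ≠ 0) (hz : z ≠ 0)
    (h : x ^ (2 * p) + y ^ (2 * p) = z ^ (2 * p))
    (hcase : ∀ P : Ideal (𝓞 K), P.IsPrime → ((p : ℕ) : 𝓞 K) ∈ P → x ∉ P)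
    (h2 : ∀ P : Ideal (𝓞 K), P.IsPrime → (2 : 𝓞 K) ∈ P → ¬ (x ∈ P ∧ y ∈ P ∧ z ∈ P))
    (h4 : ∀ P : Ideal (𝓞 K), P.IsPrime → (2 : 𝓞 K) ∈ P → ¬ p ∣ Nat.card (𝓞 K ⧸ P) - 1)
    (f : Polynomial ℤ) (hf : f.map (Int.castRingHom (𝓞 N)) = nrmP K N z (-y))
    (g : Polynomial ℤ) (hg : g.map (Int.castRingHom (𝓞 N)) = nrmP K N (z ^ 2) (-y ^ 2)) :
    aeval c.z f ≠ 0 ∧ g.eval 1 ≠ 0 ∧
    ∀ P : HeightOneSpectrum (𝓞 E), ∃ m : ℤ, P.valuation E (aeval c.z f) =
      P.valuation E (((g.eval 1) ^ ((p + 1) / 2) : ℤ) : E) * WithZero.exp ((p : ℤ) * m) := by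
  classical
  have hpp : p.Prime := Fact.out
  have hp2 : p ≠ 2 := by omega
  have hodd : Odd p := hpp.odd_of_ne_two hp2
  have hzint : IsIntegral ℤ (i c.z) := by
    have h1 : (i c.z) ^ p = 1 := by rw [← map_pow, c.prim.pow_eq_one, map_one]
    exact ⟨Polynomial.X ^ p - 1, Polynomial.monic_X_pow_sub_C 1 hpp.ne_zero, by simp [h1]⟩
  obtain ⟨zN, hzN⟩ : ∃ w : 𝓞 N, (w : N) = i c.z := ⟨⟨i c.z, hzint⟩, rfl⟩
  have hzprim : IsPrimitiveRoot zN p := by
    apply IsPrimitiveRoot.of_map_of_injective (f := algebraMap (𝓞 N) N) _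
      RingOfIntegers.coe_injective
    have h1 : algebraMap (𝓞 N) N zN = i c.z := hzN
    rw [h1]
    exact c.prim.map_of_injective i.injective
  have key : ∀ τ : K →+* N,
      (RingOfIntegers.mapRingHom τ (z ^ 2) + RingOfIntegers.mapRingHom τ (-y ^ 2) ≠ 0 ∧
        RingOfIntegers.mapRingHom τ z + zN * RingOfIntegers.mapRingHom τ (-y) ≠ 0) ∧
      ∃ I J : Ideal (𝓞 N), I ≠ ⊥ ∧ J ≠ ⊥ ∧
        Ideal.span {RingOfIntegers.mapRingHom τ z + zN * RingOfIntegers.mapRingHom τ (-y)} *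
          J ^ p = Ideal.span {(RingOfIntegers.mapRingHom τ (z ^ 2) +
            RingOfIntegers.mapRingHom τ (-y ^ 2)) ^ ((p + 1) / 2)} * I ^ p := by
    intro τ
    have finj := mapRingHom_inj τ
    have hu : ∀ P : Ideal (𝓞 N), P.IsPrime → (2 : 𝓞 N) ∈ P →
        RingOfIntegers.mapRingHom τ z - zN * RingOfIntegers.mapRingHom τ y ∉ P := by
      intro P hP hP2
      have h2τ : (2 : 𝓞 K) ∈ P.comap (RingOfIntegers.mapRingHom τ) := by
        rw [Ideal.mem_comap, map_ofNat]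
        exact hP2
      exact evn_unit' h5 (RingOfIntegers.mapRingHom τ) zN hzprim P hP hP2 h
        (h4 _ (hP.comap _) h2τ) (h2 _ (hP.comap _) h2τ)
    generalize RingOfIntegers.mapRingHom τ = φ at finj hu
    have habd : φ x ^ (2 * p) + φ y ^ (2 * p) = φ z ^ (2 * p) := by
      rw [← map_pow, ← map_pow, ← map_pow, ← map_add, h]
    have e1 : φ z + zN * φ (-y) = φ z - zN * φ y := by
      rw [map_neg]
      ring
    have e2 : φ (z ^ 2) + φ (-y ^ 2) = φ z ^ 2 - φ y ^ 2 := by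
      rw [map_neg, map_pow, map_pow]
      ring
    obtain ⟨I, J, hI0, hJ0, hIJ⟩ := hI p hp2 (𝓞 N) zN hzprim (φ x) (φ y) (φ z)
      (fun h0 => hx (finj (by rw [h0, map_zero]))) (fun h0 => hy (finj (by rw [h0, map_zero])))
      (fun h0 => hz (finj (by rw [h0, map_zero]))) habd
      (fun P hP hpP hDP => hcase (P.comap φ) (hP.comap φ)
        (by rw [Ideal.mem_comap, map_natCast]; exact hpP) (by rw [Ideal.mem_comap]; exact hDP)) hu
    have h1 : φ z ^ 2 - φ y ^ 2 ≠ 0 := by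
      intro h0
      have h3 : φ x ^ (2 * p) = 0 := by
        rw [pow_mul, pow_mul, pow_mul] at habd
        rw [sub_eq_zero.1 h0] at habd
        rw [pow_mul]
        linear_combination habd
      have h5 := (pow_eq_zero_iff (by omega)).1 h3
      exact hx (finj (by rw [h5, map_zero]))
    rw [e1, e2]
    refine ⟨⟨h1, ?_⟩, I, J, hI0, hJ0, hIJ⟩
    intro h0
    rw [h0, Ideal.span_singleton_eq_bot.2 rfl, Ideal.bot_mul] at hIJ
    have h2 := hIJ.symm
    rw [Ideal.mul_eq_bot, Ideal.span_singleton_eq_bot] at h2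
    rcases h2 with h2 | h2
    · exact pow_ne_zero _ h1 h2
    · exact hI0 ((pow_eq_zero_iff hpp.ne_zero).1 h2)
  choose h1 I J hI0 hJ0 hIJ using key
  have eU : ((∏ τ : K →+* N, (RingOfIntegers.mapRingHom τ z +
      zN * RingOfIntegers.mapRingHom τ (-y)) : 𝓞 N) : N) = i (aeval c.z f) := by
    rw [← eval_f hf zN]
    have e1 : algebraMap (𝓞 N) N (aeval zN f) = aeval (algebraMap (𝓞 N) N zN) f :=
      (aeval_algebraMap_apply N zN f).symm
    have e2 : algebraMap (𝓞 N) N zN = i c.z := hzN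
    rw [e2] at e1
    refine e1.trans ?_
    rw [aeval_def, aeval_def, hom_eval₂]
    congr 1
    exact RingHom.ext_int _ _
  have e0 : (∏ τ : K →+* N, (RingOfIntegers.mapRingHom τ (z ^ 2) +
      RingOfIntegers.mapRingHom τ (-y ^ 2))) = ((g.eval 1 : ℤ) : 𝓞 N) := by
    have e1 := eval_f hg (1 : 𝓞 N)
    simp only [one_mul] at e1
    rw [← e1]
    have e2 := aeval_algebraMap_apply (𝓞 N) (1 : ℤ) g
    rw [map_one] at e2
    rw [e2]
    rfl
  have eV : ((∏ τ : K →+* N, ((RingOfIntegers.mapRingHom τ (z ^ 2) +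
      RingOfIntegers.mapRingHom τ (-y ^ 2)) ^ ((p + 1) / 2)) : 𝓞 N) : N) =
      i (((g.eval 1) ^ ((p + 1) / 2) : ℤ) : E) := by
    rw [Finset.prod_pow, e0, map_intCast]
    push_cast
    rfl
  have hU0 : (∏ τ : K →+* N, (RingOfIntegers.mapRingHom τ z +
      zN * RingOfIntegers.mapRingHom τ (-y))) ≠ 0 :=
    Finset.prod_ne_zero_iff.2 fun τ _ => (h1 τ).2
  have hV0 : (∏ τ : K →+* N, (RingOfIntegers.mapRingHom τ (z ^ 2) +
      RingOfIntegers.mapRingHom τ (-y ^ 2))) ≠ 0 :=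
    Finset.prod_ne_zero_iff.2 fun τ _ => (h1 τ).1
  have hu0 : aeval c.z f ≠ 0 := by
    intro h0
    rw [h0, map_zero] at eU
    exact hU0 (RingOfIntegers.coe_injective (by rw [map_zero]; exact eU))
  have hg0 : g.eval 1 ≠ 0 := by
    intro h0
    rw [h0, Int.cast_zero] at e0
    exact hV0 e0
  have hv0 : (((g.eval 1) ^ ((p + 1) / 2) : ℤ) : E) ≠ 0 := by
    exact_mod_cast pow_ne_zero _ hg0
  refine ⟨hu0, hg0, ?_⟩
  apply hD _ _ hu0 hv0 _ _ eU eV (∏ τ : K →+* N, I τ) (∏ τ : K →+* N, J τ)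
  · rw [← Ideal.zero_eq_bot]
    exact Finset.prod_ne_zero_iff.2 fun τ _ => hI0 τ
  · rw [← Ideal.zero_eq_bot]
    exact Finset.prod_ne_zero_iff.2 fun τ _ => hJ0 τ
  · rw [← Ideal.prod_span_singleton, ← Ideal.prod_span_singleton, ← Finset.prod_pow,
      ← Finset.prod_pow, ← Finset.prod_mul_distrib, ← Finset.prod_mul_distrib]
    exact Finset.prod_congr rfl fun τ _ => hIJ τ


/-- the norm polynomial of `z - T y` is palindromic modulo `p` -/
theorem palE (hp5 : 5 ≤ p) (c : Cyc p E) (i : E →+* N) (hD : Dn p E N i)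
    (hcard : Nat.card (K →+* N) = Module.finrank ℚ K) (hreg : Bern p (Module.finrank ℚ K))
    (h4 : ∀ P : Ideal (𝓞 K), P.IsPrime → (2 : 𝓞 K) ∈ P → ¬ p ∣ Nat.card (𝓞 K ⧸ P) - 1)
    {x y z : 𝓞 K} (s : SolE p K x y z) :
    ∃ f : Polynomial ℤ, f.natDegree ≤ Module.finrank ℚ K ∧
      (∀ t : ℤ, f.eval t = Algebra.norm ℤ (z + (t : 𝓞 K) * -y)) ∧
      f.map (Int.castRingHom (𝓞 N)) = nrmP K N z (-y) ∧
      (f.map (Int.castRingHom (ZMod p))).reflect (Module.finrank ℚ K) =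
        f.map (Int.castRingHom (ZMod p)) := by
  have hpp : p.Prime := Fact.out
  have hp2 : p ≠ 2 := by omega
  have hm := Module.finrank_pos (R := ℚ) (M := K)
  obtain ⟨f, hdeg, hc0, hcm, hev, hf'⟩ := Y290.WQ.mainNORM K z (-y)
  obtain ⟨g, -, -, -, hgev, hg'⟩ := Y290.WQ.mainNORM K (z ^ 2) (-y ^ 2)
  have hf := hf' N hcard
  have hg := hg' N hcard
  obtain ⟨h0, hg0, hv⟩ := fldE' Y702.WQ.mainIDEE hp5 c i hD s.x0 s.y0 s.z0 s.eq
    (fun P hP hpP => (s.cp P hP hpP).1) s.two h4 f hf g hg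
  have hev1 : f.eval 1 = Algebra.norm ℤ (z + ((1 : ℤ) : 𝓞 K) * -y) := hev 1
  have hpu : ¬ (p : ℤ) ∣ f.eval 1 := by
    rw [hev]
    apply norm_coprime hcard Y290.WQ.mainNORM p hpp
    intro P hP hpP h'
    apply (s.sub_notMem hpp hp2 P hP hpP).2
    have e : z - y = z + ((1 : ℤ) : 𝓞 K) * -y := by push_cast; ring
    rw [e]
    exact h'
  have hpg : ¬ (p : ℤ) ∣ g.eval 1 := by
    rw [hgev]
    apply norm_coprime hcard Y290.WQ.mainNORM p hpp
    intro P hP hpP h'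
    apply (s.sub_notMem hpp hp2 P hP hpP).1
    have e : z ^ 2 - y ^ 2 = z ^ 2 + ((1 : ℤ) : 𝓞 K) * -y ^ 2 := by push_cast; ring
    rw [e]
    exact h'
  have hpV : ¬ (p : ℤ) ∣ (g.eval 1) ^ ((p + 1) / 2) := fun h =>
    hpg ((Nat.prime_iff_prime_int.1 hpp).dvd_of_dvd_pow h)
  have hrel : Rel p (f.map (Int.castRingHom (ZMod p))) := by
    intro a' ha' hap'
    obtain ⟨g', hg', k', hk'⟩ := relGA aUNITA hp2 a' ha' hap' c f _ hpV hpu h0 hv
    obtain ⟨r', hr', hdv'⟩ := Y919.WQ.mainLAMA p hp2 a' ha' hap' E c f _ hpV hpu g' hg' k' hk'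
    exact ⟨k', r', hr', hdv'⟩
  have hz : ∀ k : ℤ, ¬ (p : ℤ) ∣ k → (Int.castRingHom (ZMod p)) k ≠ 0 := by
    intro k hk h0
    exact hk ((ZMod.intCast_zmod_eq_zero_iff_dvd k p).1 h0)
  have b1 : (f.map (Int.castRingHom (ZMod p))).natDegree ≤ Module.finrank ℚ K :=
    natDegree_map_le.trans hdeg
  have b2 : (f.map (Int.castRingHom (ZMod p))).coeff 0 ≠ 0 := by
    rw [coeff_map, hc0]
    exact hz _ (norm_coprime hcard Y290.WQ.mainNORM p hpp _ fun P hP hpP => (s.cp P hP hpP).2.2)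
  have b3 : (f.map (Int.castRingHom (ZMod p))).coeff (Module.finrank ℚ K) ≠ 0 := by
    rw [coeff_map, hcm]
    exact hz _ (norm_coprime hcard Y290.WQ.mainNORM p hpp _ fun P hP hpP h =>
      (s.cp P hP hpP).2.1 (neg_mem_iff.1 h))
  have b4 : (f.map (Int.castRingHom (ZMod p))).eval 1 ≠ 0 := by
    have e : (f.map (Int.castRingHom (ZMod p))).eval 1 = (Int.castRingHom (ZMod p)) (f.eval 1) := by
      rw [eval_map, ← map_one (Int.castRingHom (ZMod p)), eval₂_hom]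
    rw [e]
    exact hz _ hpu
  refine ⟨f, hdeg, hev, hf, ?_⟩
  have h5 := hreg.le hm
  rcases hreg with h | h
  · refine Y510.WQ.mainPOLBA Y275.WQ.mainCOREA p _ _ h5 b1 b2 b3 b4 hrel fun j hj h3j hjm => ?_
    apply reg_of Y61.WQ.mainBER j hj h3j (by omega)
    intro hk
    have := h.2 _ hk
    omega
  · refine Y590.WQ.mainPOLE Y780.WQ.mainPOLE1 Y286.WQ.mainPOLE2 p _ _
      ((irr p).image fun k => p - k) hm b1 b2 b3 b4 hrel ?_ ?_
    · intro j hj h3j hjp hjJ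
      apply reg_of Y61.WQ.mainBER j hj h3j hjp
      intro hk
      apply hjJ
      rw [Finset.mem_image]
      exact ⟨p - j, hk, by omega⟩
    · have e : ((irr p).image fun k => p - k).card ≤ (irr p).card := Finset.card_image_le
      have e2 : (((irr p).image fun k => p - k).card + 1) *
          (((irr p).image fun k => p - k).card + 2) ≤ ((irr p).card + 1) * ((irr p).card + 2) :=
        Nat.mul_le_mul (by omega) (by omega)
      have := Nat.mul_le_mul_left (Module.finrank ℚ K) e2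
      omega

end

end Pool.Agent.N840.FC
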