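import Pool.Agent.N840.FC.Ev

/-!
# Even exponents over fields of odd degree, or with a place of large local degree above `p`
-/

set_option autoImplicit false

namespace Pool.Agent.N840.FC

open NumberField IsDedekindDomain Polynomial Pool.Agent.Y546.WQ

section

variable {p : ℕ} [Fact p.Prime] {K N : Type} [Field K] [NumberField K] [Field N] [NumberField N]

/-- values of a palindromic norm polynomial in a field of characteristic `p` -/
theorem pal_evalE (hcard : Nat.card (K →+* N) = Module.finrank ℚ K) {F : Type*} [Field F]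
    [CharP F p] (ψ : 𝓞 N →+* F) {X Y : 𝓞 K} (f : Polynomial ℤ)
    (hdeg : f.natDegree ≤ Module.finrank ℚ K)
    (hf : f.map (Int.castRingHom (𝓞 N)) = nrmP K N X Y)
    (hpal : (f.map (Int.castRingHom (ZMod p))).reflect (Module.finrank ℚ K) =
      f.map (Int.castRingHom (ZMod p))) (t : F) (ht : t ≠ 0) :
    ∏ τ : K →+* N, (ψ (RingOfIntegers.mapRingHom τ X) + t * ψ (RingOfIntegers.mapRingHom τ Y)) =
      ∏ τ : K →+* N, (ψ (RingOfIntegers.mapRingHom τ Y) +
        t * ψ (RingOfIntegers.mapRingHom τ X)) := by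
  classical
  have key : ∀ s : F, eval₂ (ZMod.castHom (dvd_refl p) F) s (f.map (Int.castRingHom (ZMod p))) =
      ∏ τ : K →+* N, (ψ (RingOfIntegers.mapRingHom τ X) +
        s * ψ (RingOfIntegers.mapRingHom τ Y)) := by
    intro s
    rw [eval₂_map]
    have e1 : (ZMod.castHom (dvd_refl p) F).comp (Int.castRingHom (ZMod p)) =
        ψ.comp (Int.castRingHom (𝓞 N)) := RingHom.ext_int _ _
    rw [e1, ← eval₂_map, hf]
    unfold nrmP
    rw [eval₂_finset_prod]
    refine Finset.prod_congr rfl fun τ _ => ?_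
    rw [eval₂_add, eval₂_mul, eval₂_C, eval₂_C, eval₂_X]
  let _ : Invertible t := invertibleOfNonzero ht
  have h3 := eval₂_reflect_mul_pow (ZMod.castHom (dvd_refl p) F) t (Module.finrank ℚ K)
      (f.map (Int.castRingHom (ZMod p))) (natDegree_map_le.trans hdeg)
  rw [hpal, key, key, ← hcard, Nat.card_eq_fintype_card, ← Finset.card_univ, ← Finset.prod_const,
    ← Finset.prod_mul_distrib] at h3
  rw [← h3]
  refine Finset.prod_congr rfl fun τ _ => ?_
  have h4 : ⅟t * t = 1 := invOf_mul_self t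
  linear_combination ψ ((RingOfIntegers.mapRingHom τ) Y) * h4

end

/-- the conditions for even exponents -/
def DecE (K : Type) [Field K] [NumberField K] (p : ℕ) : Prop :=
  Odd (Module.finrank ℚ K) ∨
  (p % 12 ≠ 11 ∧ ∃ (v : HeightOneSpectrum (𝓞 K)) (e f : ℕ), ((p : ℕ) : 𝓞 K) ∈ v.asIdeal ^ e ∧
    Ideal.absNorm v.asIdeal = p ^ f ∧ Module.finrank ℚ K < 2 * (e * f))

theorem mainEv {p : ℕ} (hp : p.Prime) {K : Type} [Field K] [NumberField K]
    (hreg : Bern p (Module.finrank ℚ K))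
    (h4 : ∀ P : Ideal (𝓞 K), P.IsPrime → (2 : 𝓞 K) ∈ P → ¬ p ∣ Nat.card (𝓞 K ⧸ P) - 1)
    (hK : DecE K p) {x y z : K} (hx : x ≠ 0) (hy : y ≠ 0) (hz : z ≠ 0)
    (h : x ^ (2 * p) + y ^ (2 * p) = z ^ (2 * p))
    (hv : ∀ v : HeightOneSpectrum (𝓞 K), ((p : ℕ) : 𝓞 K) ∈ v.asIdeal →
      v.valuation K x = v.valuation K y ∧ v.valuation K y = v.valuation K z) : False := by
  classical
  have hfact : Fact p.Prime := ⟨hp⟩
  have hm := Module.finrank_pos (R := ℚ) (M := K)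
  have h5 : 2 * Module.finrank ℚ K + 3 ≤ p := hreg.le hm
  have hp5 : 5 ≤ p := by omega
  have hp2 : p ≠ 2 := by omega
  have hp3 : p ≠ 3 := by omega
  have hodd : Odd p := hp.odd_of_ne_two hp2
  obtain ⟨E, _, _, ⟨c⟩⟩ := Y978.WQ.main p hp2
  obtain ⟨N, _, _, i, hcard, hD⟩ := Y258.WQ.mainDOWNG p E c K (by omega)
  have hD' : Dn p E N i := hD
  obtain ⟨X, Y, Z, hX0, hY0, hZ0, hXYZ, hcp, htwo⟩ := prepE hp hx hy hz h hv
  have s : SolE p K X Y Z := ⟨hX0, hY0, hZ0, hXYZ, hcp, htwo⟩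
  obtain ⟨f, hdeg, hev, hf, hpalf⟩ := palE hp5 c i hD' hcard hreg h4 s
  rcases hK with hmo | ⟨hp12, v, e, fv, hpe, hfv, hef⟩
  · -- the value at minus one
    have h2 : (f.map (Int.castRingHom (ZMod p))).eval (-1) = 0 := by
      let _ : Invertible (-1 : ZMod p) := ⟨-1, by ring, by ring⟩
      have h3 := eval₂_reflect_mul_pow (RingHom.id (ZMod p)) (-1) (Module.finrank ℚ K)
        (f.map (Int.castRingHom (ZMod p))) (natDegree_map_le.trans hdeg)
      have h4 : (⅟(-1) : ZMod p) = -1 := rfl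
      rw [h4, hpalf, hmo.neg_one_pow, eval₂_id] at h3
      have h5 : (2 : ZMod p) ≠ 0 := by
        have h : ((2 : ℕ) : ZMod p) ≠ 0 := by
          rw [Ne, ZMod.natCast_eq_zero_iff]
          intro hd
          exact hp2 ((Nat.prime_dvd_prime_iff_eq hp Nat.prime_two).1 hd)
        exact_mod_cast h
      have h6 : (2 : ZMod p) * (f.map (Int.castRingHom (ZMod p))).eval (-1) = 0 := by
        linear_combination -h3
      exact (mul_eq_zero.1 h6).resolve_left h5
    have h3 : (p : ℤ) ∣ Algebra.norm ℤ (Z + Y) := by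
      have e1 : (f.map (Int.castRingHom (ZMod p))).eval (-1) =
          (Int.castRingHom (ZMod p)) (f.eval (-1)) := by
        have : (-1 : ZMod p) = (Int.castRingHom (ZMod p)) (-1) := by simp
        rw [this, eval_map, eval₂_hom]
      rw [e1, hev] at h2
      have e2 : Z + ((-1 : ℤ) : 𝓞 K) * -Y = Z + Y := by
        push_cast
        ring
      rw [e2] at h2
      exact (ZMod.intCast_zmod_eq_zero_iff_dvd _ p).1 h2
    by_contra
    refine norm_coprime hcard Y290.WQ.mainNORM p hp (Z + Y) (fun P hP hpP hZY => ?_) h3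
    apply (s.sub_notMem hp hp2 P hP hpP).1
    have e : Z ^ 2 - Y ^ 2 = (Z + Y) * (Z - Y) := by ring
    rw [e]
    exact P.mul_mem_right _ hZY
  · -- a place of large local degree
    have hpal : PalK p K := palK aUNITA Y261.WQ.main Y919.WQ.mainLAMA Y290.WQ.mainNORM
      (Y510.WQ.mainPOLBA Y275.WQ.mainCOREA) (Y590.WQ.mainPOLE Y780.WQ.mainPOLE1 Y286.WQ.mainPOLE2)
      Y61.WQ.mainBER c i hD' hcard hreg
    have hpv : ((p : ℕ) : 𝓞 K) ∈ v.asIdeal :=
      Ideal.pow_le_self (fun h => by rw [h, zero_mul] at hef; omega) hpe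
    have hs : Sol p K (X ^ 2) (Y ^ 2) (-Z ^ 2) := by
      refine ⟨pow_ne_zero 2 hX0, pow_ne_zero 2 hY0, neg_ne_zero.2 (pow_ne_zero 2 hZ0), ?_, ?_⟩
      · rw [hodd.neg_pow, ← pow_mul, ← pow_mul, ← pow_mul, hXYZ]
        ring
      · intro P hP hpP
        obtain ⟨k1, k2, k3⟩ := hcp P hP hpP
        exact ⟨fun h => k1 (hP.mem_of_pow_mem 2 h), fun h => k2 (hP.mem_of_pow_mem 2 h),
          fun h => k3 (hP.mem_of_pow_mem 2 (neg_mem_iff.1 h))⟩
    obtain ⟨Q, hQ, hQp⟩ := exists_above (K := N) p hp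
    have hQ0 : Q ≠ ⊥ := by
      rintro rfl
      rw [Ideal.mem_bot, Nat.cast_eq_zero] at hQp
      exact hp.ne_zero hQp
    have hQm : Q.IsMaximal := hQ.isMaximal hQ0
    let _ : Field (𝓞 N ⧸ Q) := Ideal.Quotient.field Q
    have hch : CharP (𝓞 N ⧸ Q) p := charP_quot Q hQ p hp hQp
    let F := AlgebraicClosure (𝓞 N ⧸ Q)
    have hchF : CharP F p := charP_of_injective_algebraMap (algebraMap (𝓞 N ⧸ Q) F).injective p
    let ψ : 𝓞 N →+* F := (algebraMap (𝓞 N ⧸ Q) F).comp (Ideal.Quotient.mk Q)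
    have hψ : ∀ w : 𝓞 N, ψ w = 0 ↔ w ∈ Q := by
      intro w
      constructor
      · intro h
        have h1 : algebraMap (𝓞 N ⧸ Q) F (Ideal.Quotient.mk Q w) = 0 := h
        rw [map_eq_zero_iff _ (algebraMap (𝓞 N ⧸ Q) F).injective] at h1
        exact Ideal.Quotient.eq_zero_iff_mem.1 h1
      · intro h
        show algebraMap (𝓞 N ⧸ Q) F (Ideal.Quotient.mk Q w) = 0
        rw [Ideal.Quotient.eq_zero_iff_mem.2 h, map_zero]
    have S : Sym (fam (K := K) ψ ![X ^ 2, Y ^ 2, -Z ^ 2]) :=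
      sym_of_pal hp5 hcard hpal Q hQ hQp ψ hψ hs
    obtain ⟨hXv, hYv, hZv⟩ := hcp v.asIdeal v.isPrime hpv
    have hV : ∀ b, (![X ^ 2, Y ^ 2, -Z ^ 2] : Fin 3 → 𝓞 K) b ∉ v.asIdeal := by
      intro b
      obtain ⟨k1, k2, k3⟩ := hs.cp v.asIdeal v.isPrime hpv
      fin_cases b
      · exact k1
      · exact k2
      · exact k3
    have hl : X ^ 2 + Y ^ 2 + -Z ^ 2 ∈ v.asIdeal := lin_p hp v.asIdeal v.isPrime hpv hs.eq
    obtain ⟨k1, k2⟩ := (place_main hp5 hcard (by omega) Q hQ hQp ψ hψ _ S v e fv hpe hfv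
      hV hl).1 hef
    have k1' : (X ^ 2) ^ 2 + X ^ 2 * Y ^ 2 + (Y ^ 2) ^ 2 ∈ v.asIdeal := k1
    have hp4 : p % 4 = 1 := by
      have h2 : p % 2 = 1 := Nat.odd_iff.1 hodd
      have h3 : p % 3 ≠ 0 := by
        intro h0
        have := (Nat.prime_dvd_prime_iff_eq Nat.prime_three hp).1 (Nat.dvd_of_mod_eq_zero h0)
        omega
      omega
    -- the residue field at `v`
    have hvm : v.asIdeal.IsMaximal := v.isMaximal
    let _ : Field (𝓞 K ⧸ v.asIdeal) := Ideal.Quotient.field v.asIdeal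
    have hfin : Finite (𝓞 K ⧸ v.asIdeal) := Ideal.finiteQuotientOfFreeOfNeBot v.asIdeal v.ne_bot
    have hchv : CharP (𝓞 K ⧸ v.asIdeal) p := charP_quot v.asIdeal v.isPrime p hp hpv
    have hY1 : Ideal.Quotient.mk v.asIdeal Y ≠ 0 := fun h0 =>
      hYv (Ideal.Quotient.eq_zero_iff_mem.1 h0)
    have hZ1 : Ideal.Quotient.mk v.asIdeal Z ≠ 0 := fun h0 =>
      hZv (Ideal.Quotient.eq_zero_iff_mem.1 h0)
    set r : 𝓞 K ⧸ v.asIdeal := Ideal.Quotient.mk v.asIdeal Z / Ideal.Quotient.mk v.asIdeal (-Y)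
      with hr
    have hr0 : r ≠ 0 := by
      rw [hr, map_neg]
      exact div_ne_zero hZ1 (neg_ne_zero.2 hY1)
    have hr4 : r ^ 4 - r ^ 2 + 1 = 0 := by
      have e1 : Y ^ 4 - Y ^ 2 * Z ^ 2 + Z ^ 4 ∈ v.asIdeal := by
        have e : Y ^ 4 - Y ^ 2 * Z ^ 2 + Z ^ 4 = ((X ^ 2) ^ 2 + X ^ 2 * Y ^ 2 + (Y ^ 2) ^ 2) -
            (X ^ 2 + Z ^ 2) * (X ^ 2 + Y ^ 2 + -Z ^ 2) := by ring
        rw [e]
        exact v.asIdeal.sub_mem k1' (v.asIdeal.mul_mem_left _ hl)
      rw [← Ideal.Quotient.eq_zero_iff_mem] at e1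
      simp only [map_add, map_sub, map_mul, map_pow] at e1
      rw [hr, map_neg]
      field_simp
      linear_combination e1
    have hr6 : r ^ 6 = -1 := by linear_combination (r ^ 2 + 1) * hr4
    -- the permutation of the embeddings
    have hmemp : ∀ τ : K →+* N, ((p : ℕ) : 𝓞 K) ∈ Q.comap (RingOfIntegers.mapRingHom τ) := by
      intro τ
      rw [Ideal.mem_comap, map_natCast]
      exact hQp
    have hYF : ∀ τ : K →+* N, ψ (RingOfIntegers.mapRingHom τ (-Y)) ≠ 0 := by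
      intro τ h0
      have h1 : -Y ∈ Q.comap (RingOfIntegers.mapRingHom τ) := (hψ _).1 h0
      exact (hcp _ (hQ.comap _) (hmemp τ)).2.1 (neg_mem_iff.1 h1)
    have hZF : ∀ τ : K →+* N, ψ (RingOfIntegers.mapRingHom τ Z) ≠ 0 := by
      intro τ h0
      exact (hcp _ (hQ.comap _) (hmemp τ)).2.2 ((hψ _).1 h0)
    obtain ⟨β, hβ⟩ := perm_of_prod (fun τ : K →+* N => ψ (RingOfIntegers.mapRingHom τ Z))
      (fun τ => ψ (RingOfIntegers.mapRingHom τ (-Y)))
      (fun τ => ψ (RingOfIntegers.mapRingHom τ (-Y)))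
      (fun τ => ψ (RingOfIntegers.mapRingHom τ Z)) hYF hZF
      (fun t ht => pal_evalE (p := p) hcard ψ f hdeg hf hpalf t ht)
    have hcnt := count_ge hcard (by omega) Q hQ hQp v e fv hpe hfv
    obtain ⟨τ, hτ, hβτ⟩ := meet_two (emb Q v.asIdeal) (by
      rw [← Nat.card_eq_fintype_card, hcard]
      omega) β
    have hker : ∀ τ : K →+* N, τ ∈ emb Q v.asIdeal → ∀ a ∈ v.asIdeal,
        (ψ.comp (RingOfIntegers.mapRingHom τ : 𝓞 K →+* 𝓞 N)) a = 0 := by
      intro τ hτ a ha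
      rw [mem_emb] at hτ
      rw [← hτ] at ha
      exact (hψ _).2 ha
    obtain ⟨j, hj⟩ := conj_of_maps (p := p) (a := r) (b := r⁻¹)
      (Ideal.Quotient.lift v.asIdeal _ (hker τ hτ))
      (Ideal.Quotient.lift v.asIdeal _ (hker (β τ) hβτ)) (by
        rw [hr, inv_div, map_div₀, map_div₀]
        exact hβ τ)
    rw [iterateFrobenius_def] at hj
    have h7 : r ^ (p ^ j + 1) = 1 := by
      rw [pow_succ, hj]
      exact inv_mul_cancel₀ hr0
    have h8 : p ^ j % 4 = 1 := by norm_num [Nat.pow_mod, hp4]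
    have h12 : r ^ 12 = 1 := by
      calc r ^ 12 = (r ^ 6) ^ 2 := by ring
        _ = 1 := by rw [hr6]; norm_num
    have h9 : r ^ 6 = 1 := by
      obtain ⟨q, hq⟩ : ∃ q, p ^ j + 1 = 4 * q + 2 := ⟨p ^ j / 4, by omega⟩
      rw [hq] at h7
      calc r ^ 6 = (r ^ 12) ^ q * r ^ 6 := by rw [h12, one_pow, one_mul]
        _ = (r ^ (4 * q + 2)) ^ 3 := by ring
        _ = 1 := by rw [h7, one_pow]
    rw [hr6] at h9
    have h2v : (2 : 𝓞 K ⧸ v.asIdeal) ≠ 0 := by
      have h : ((2 : ℕ) : 𝓞 K ⧸ v.asIdeal) ≠ 0 := by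
        rw [Ne, CharP.cast_eq_zero_iff (𝓞 K ⧸ v.asIdeal) p]
        intro hd
        have := Nat.le_of_dvd (by norm_num) hd
        omega
      exact_mod_cast h
    apply h2v
    linear_combination -h9

end Pool.Agent.N840.FC
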