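import Pool.Agent.N840.FC.Cnt

/-!
# Triples in finite fields, permutations of coordinates and the Frobenius
-/

set_option autoImplicit false

namespace Pool.Agent.N840.FC

open Polynomial

section pr

variable {F : Type*} [Field F]

/-- proportional triples -/
def Pr (u v : Fin 3 → F) : Prop := ∃ c : F, c ≠ 0 ∧ ∀ i, u i = c * v i

theorem Pr.refl (u : Fin 3 → F) : Pr u u := ⟨1, one_ne_zero, fun _ => (one_mul _).symm⟩

theorem perm_cases : ∀ π : Equiv.Perm (Fin 3), π ≠ 1 →
    π = Equiv.swap 0 1 ∨ π = Equiv.swap 1 2 ∨ π = Equiv.swap 2 0 ∨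
      (π 0 = 1 ∧ π 1 = 2 ∧ π 2 = 0) ∨ (π 0 = 2 ∧ π 1 = 0 ∧ π 2 = 1) := by
  decide

theorem Pr.symm {u v : Fin 3 → F} (h : Pr u v) : Pr v u := by
  obtain ⟨c, hc, h⟩ := h
  exact ⟨c⁻¹, inv_ne_zero hc, fun i => by rw [h i, ← mul_assoc, inv_mul_cancel₀ hc, one_mul]⟩

theorem Pr.trans {u v w : Fin 3 → F} (h : Pr u v) (h' : Pr v w) : Pr u w := by
  obtain ⟨c, hc, h⟩ := h
  obtain ⟨d, hd, h'⟩ := h'
  exact ⟨c * d, mul_ne_zero hc hd, fun i => by rw [h i, h' i, mul_assoc]⟩

theorem Pr.comp {u v : Fin 3 → F} (h : Pr u v) (π : Equiv.Perm (Fin 3)) :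
    Pr (u ∘ π) (v ∘ π) := by
  obtain ⟨c, hc, h⟩ := h
  exact ⟨c, hc, fun i => h (π i)⟩

theorem Pr.map {F' : Type*} [Field F'] (φ : F →+* F') {u v : Fin 3 → F} (h : Pr u v) :
    Pr (φ ∘ u) (φ ∘ v) := by
  obtain ⟨c, hc, h⟩ := h
  exact ⟨φ c, (map_ne_zero φ).2 hc, fun i => by simp [h i]⟩

/-- a triple with sum zero is determined by the ratio of two coordinates -/
theorem Pr.of_ratio {u v : Fin 3 → F} (hu : ∀ i, u i ≠ 0) (hv : ∀ i, v i ≠ 0)
    (su : u 0 + u 1 + u 2 = 0) (sv : v 0 + v 1 + v 2 = 0) (h : u 0 / u 1 = v 0 / v 1) :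
    Pr u v := by
  have h1 : u 0 = u 1 / v 1 * v 0 := by
    have := hu 1
    have := hv 1
    field_simp at h ⊢
    linear_combination h
  have h2 : u 1 = u 1 / v 1 * v 1 := by
    have := hv 1
    field_simp
  refine ⟨u 1 / v 1, div_ne_zero (hu 1) (hv 1), fun i => ?_⟩
  fin_cases i
  · exact h1
  · exact h2
  · show u 2 = u 1 / v 1 * v 2
    have e1 : u 2 = -u 0 - u 1 := by linear_combination su
    have e2 : v 2 = -v 0 - v 1 := by linear_combination sv
    rw [e1, e2]
    linear_combination -h1 - h2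

theorem Pr.ratio {u v : Fin 3 → F} (h : Pr u v) (a b : Fin 3) :
    u a / u b = v a / v b := by
  obtain ⟨c, hc, h⟩ := h
  rw [h a, h b, mul_div_mul_left _ _ hc]

/-- the fixed points of a permutation of the coordinates -/
theorem Pr.fixed {u : Fin 3 → F} (h3 : (3 : F) ≠ 0) (hu : ∀ i, u i ≠ 0)
    (su : u 0 + u 1 + u 2 = 0)
    {π : Equiv.Perm (Fin 3)} (hπ : π ≠ 1) (h : Pr (u ∘ π) u) :
    (u 0 = u 1 ∨ u 1 = u 2 ∨ u 2 = u 0) ∨ u 0 ^ 2 + u 0 * u 1 + u 1 ^ 2 = 0 := by
  obtain ⟨c, hc, h⟩ := h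
  have hcase := perm_cases π hπ
  have h0 := h 0
  have h1 := h 1
  have h2 := h 2
  simp only [Function.comp_apply] at h0 h1 h2
  have one_of : ∀ i, u i = c * u i → c = 1 := by
    intro i hi
    have : (c - 1) * u i = 0 := by linear_combination -hi
    exact sub_eq_zero.1 ((mul_eq_zero.1 this).resolve_right (hu i))
  rcases hcase with rfl | rfl | rfl | ⟨a0, a1, a2⟩ | ⟨a0, a1, a2⟩
  · left; left
    have e : (Equiv.swap (0 : Fin 3) 1) 2 = 2 := by decide
    rw [e] at h2
    rw [Equiv.swap_apply_left, one_of 2 h2, one_mul] at h0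
    exact h0.symm
  · left; right; left
    have e : (Equiv.swap (1 : Fin 3) 2) 0 = 0 := by decide
    rw [e] at h0
    rw [Equiv.swap_apply_left, one_of 0 h0, one_mul] at h1
    exact h1.symm
  · left; right; right
    have e : (Equiv.swap (2 : Fin 3) 0) 1 = 1 := by decide
    rw [e] at h1
    rw [Equiv.swap_apply_left, one_of 1 h1, one_mul] at h2
    exact h2.symm
  · right
    rw [a0] at h0
    rw [a1] at h1
    have e1 : (1 + c + c ^ 2) * u 0 = 0 := by
      linear_combination su - (1 + c) * h0 - h1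
    have e2 := (mul_eq_zero.1 e1).resolve_right (hu 0)
    rw [h0]
    linear_combination u 0 ^ 2 * e2
  · right
    rw [a0] at h0
    rw [a1] at h1
    have e1 : (1 + c + c ^ 2) * u 1 = 0 := by
      linear_combination su - (1 + c) * h1 - h0
    have e2 := (mul_eq_zero.1 e1).resolve_right (hu 1)
    rw [h1]
    linear_combination u 1 ^ 2 * e2

end pr

section finite

variable {p : ℕ} [Fact p.Prime] {k : Type*} [Field k] [Finite k] [CharP k p]

/-- elements with the same images under two embeddings are conjugate -/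
theorem conj_of_maps {F : Type*} [Field F] (φ1 φ2 : k →+* F) {a b : k} (h : φ2 a = φ1 b) :
    ∃ j : ℕ, iterateFrobenius k p j a = b := by
  classical
  have hfin : Fintype k := Fintype.ofFinite k
  let _ : Algebra (ZMod p) k := ZMod.algebra k p
  have hint : IsAlgebraic (ZMod p) a := Algebra.IsAlgebraic.isAlgebraic a
  have key : aeval b (minpoly (ZMod p) a) = 0 := by
    apply φ1.injective
    rw [map_zero, aeval_def, hom_eval₂, ← h]
    have e : φ1.comp (algebraMap (ZMod p) k) = φ2.comp (algebraMap (ZMod p) k) :=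
      Subsingleton.elim _ _
    rw [e, ← hom_eval₂, ← aeval_def, minpoly.aeval, map_zero]
  obtain ⟨σ, hσ⟩ := minpoly.exists_algEquiv_of_root' hint key
  obtain ⟨n, hn⟩ := (FiniteField.bijective_frobeniusAlgEquivOfAlgebraic_pow (ZMod p) k).2 σ
  refine ⟨n.1, ?_⟩
  rw [← hσ, ← hn, iterateFrobenius_def]
  simp only [AlgEquiv.coe_pow]
  have := FiniteField.coe_frobeniusAlgEquivOfAlgebraic_iterate (K := ZMod p) (L := k) n.1
  rw [this, ZMod.card]

/-- a point fixed by a power of a Frobenius of exponent prime to the degree is fixed -/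
theorem fixed_of_pow {f : ℕ} (hf : Nat.card k = p ^ f) (j r : ℕ) (hr : Nat.Coprime r f) {a : k}
    (h : iterateFrobenius k p (j * r) a = a) : iterateFrobenius k p j a = a := by
  have hfin : Fintype k := Fintype.ofFinite k
  have e : ∀ n, iterateFrobenius k p n a = (frobenius k p)^[n] a := fun n =>
    congrFun (coe_iterateFrobenius k p n) a
  have h1 : Function.IsPeriodicPt (frobenius k p) (j * r) a := by
    rw [Function.IsPeriodicPt, Function.IsFixedPt, ← e]
    exact h
  have h2 : Function.IsPeriodicPt (frobenius k p) f a := by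
    rw [Function.IsPeriodicPt, Function.IsFixedPt, ← e, iterateFrobenius_def, ← hf,
      Nat.card_eq_fintype_card]
    exact FiniteField.pow_card a
  have h3 := h1.gcd h2
  rw [Nat.Coprime.gcd_mul_right_cancel j hr] at h3
  have h4 := h3.trans_dvd (Nat.gcd_dvd_left j f)
  rw [Function.IsPeriodicPt, Function.IsFixedPt, ← e] at h4
  exact h4

theorem iter_add (i j : ℕ) (a : k) :
    iterateFrobenius k p (i + j) a = iterateFrobenius k p i (iterateFrobenius k p j a) := by
  rw [iterateFrobenius_def, iterateFrobenius_def, iterateFrobenius_def, ← pow_mul, pow_add,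
    mul_comm]

variable {W : Fin 3 → k}

/-- conjugate triples -/
theorem conj_triple {F : Type*} [Field F] (φ1 φ2 : k →+* F) (hW : ∀ i, W i ≠ 0)
    (sW : W 0 + W 1 + W 2 = 0) (π : Equiv.Perm (Fin 3)) (h : Pr (φ2 ∘ W) ((φ1 ∘ W) ∘ π)) :
    ∃ j : ℕ, Pr (iterateFrobenius k p j ∘ W) (W ∘ π) := by
  have h1 := h.ratio 0 1
  simp only [Function.comp_apply] at h1
  rw [← map_div₀, ← map_div₀] at h1
  obtain ⟨j, hj⟩ := conj_of_maps (p := p) φ1 φ2 h1
  refine ⟨j, Pr.of_ratio (fun i => ?_) (fun i => hW _) ?_ ?_ ?_⟩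
  · exact (map_ne_zero (iterateFrobenius k p j)).2 (hW i)
  · simp only [Function.comp_apply]
    rw [← map_add, ← map_add, sW, map_zero]
  · have : W (π 0) + W (π 1) + W (π 2) = W 0 + W 1 + W 2 := by
      have := Equiv.sum_comp π W
      simpa [Fin.sum_univ_three] using this
    simp only [Function.comp_apply]
    rw [this, sW]
  · simp only [Function.comp_apply]
    rw [← map_div₀, hj]

theorem Pr.iter {j : ℕ} {π : Equiv.Perm (Fin 3)} (h : Pr (iterateFrobenius k p j ∘ W) (W ∘ π))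
    (r : ℕ) : Pr (iterateFrobenius k p (j * r) ∘ W) (W ∘ (π ^ r : Equiv.Perm (Fin 3))) := by
  induction r with
  | zero =>
    have e : iterateFrobenius k p (j * 0) ∘ W = W := by
      funext i
      simp
    rw [e]
    exact Pr.refl W
  | succ r ih =>
    have e : iterateFrobenius k p (j * (r + 1)) ∘ W =
        iterateFrobenius k p j ∘ (iterateFrobenius k p (j * r) ∘ W) := by
      funext i
      simp only [Function.comp_apply]
      rw [mul_add, mul_one, add_comm, iter_add]
    rw [e]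
    refine (ih.map (iterateFrobenius k p j)).trans ?_
    have h2 := h.comp (π ^ r)
    have e2 : (W ∘ π) ∘ (π ^ r : Equiv.Perm (Fin 3)) = W ∘ (π ^ (r + 1) : Equiv.Perm (Fin 3)) := by
      funext i
      simp only [Function.comp_apply]
      rw [pow_succ', Equiv.Perm.mul_apply]
    rw [e2] at h2
    exact h2

/-- the case of a permutation of order prime to the degree -/
theorem Pr.descend {f : ℕ} (hf : Nat.card k = p ^ f) (hW : ∀ i, W i ≠ 0)
    (sW : W 0 + W 1 + W 2 = 0) {j : ℕ} {π : Equiv.Perm (Fin 3)}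
    (h : Pr (iterateFrobenius k p j ∘ W) (W ∘ π)) (r : ℕ) (hπ : π ^ r = 1)
    (hr : Nat.Coprime r f) : Pr (W ∘ π) W := by
  have h1 := h.iter r
  rw [hπ] at h1
  have h2 : Pr (iterateFrobenius k p (j * r) ∘ W) W := h1
  have h3 := h2.ratio 0 1
  simp only [Function.comp_apply] at h3
  rw [← map_div₀] at h3
  have h4 := fixed_of_pow hf j r hr h3
  have h5 : Pr (iterateFrobenius k p j ∘ W) W := by
    refine Pr.of_ratio (fun i => ?_) hW ?_ sW ?_
    · exact (map_ne_zero (iterateFrobenius k p j)).2 (hW i)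
    · simp only [Function.comp_apply]
      rw [← map_add, ← map_add, sW, map_zero]
    · simp only [Function.comp_apply]
      rw [← map_div₀, h4]
  exact h.symm.trans h5

/-- if all permutations are realised by the Frobenius, the ratio is a cube root of unity, which is
not in the prime field -/
theorem Pr.all (hW : ∀ i, W i ≠ 0)
    (sW : W 0 + W 1 + W 2 = 0) (hp : 5 ≤ p)
    (h : ∀ π : Equiv.Perm (Fin 3), ∃ j : ℕ, Pr (iterateFrobenius k p j ∘ W) (W ∘ π)) :
    W 0 ^ 2 + W 0 * W 1 + W 1 ^ 2 = 0 ∧ p % 3 ≠ 1 := by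
  have h3 : (3 : k) ≠ 0 := by
    have h : ((3 : ℕ) : k) ≠ 0 := by
      rw [Ne, CharP.cast_eq_zero_iff k p]
      intro hd
      have := Nat.le_of_dvd (by norm_num) hd
      omega
    exact_mod_cast h
  obtain ⟨i, hi⟩ := h (Equiv.swap 0 1)
  obtain ⟨j, hj⟩ := h (Equiv.swap 1 2)
  have e1 := hj.map (iterateFrobenius k p i)
  have e2 := hi.map (iterateFrobenius k p j)
  have c1 : iterateFrobenius k p i ∘ (iterateFrobenius k p j ∘ W) =
      iterateFrobenius k p j ∘ (iterateFrobenius k p i ∘ W) := by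
    funext a
    simp only [Function.comp_apply]
    rw [← iter_add, ← iter_add, add_comm]
  rw [c1] at e1
  have d1 := (e1.symm.trans e2)
  -- `σ_i (W ∘ t)` and `σ_j (W ∘ s)`
  have d2 : Pr ((W ∘ (Equiv.swap 0 1 : Equiv.Perm (Fin 3))) ∘ (Equiv.swap 1 2 : Equiv.Perm (Fin 3)))
      ((W ∘ (Equiv.swap 1 2 : Equiv.Perm (Fin 3))) ∘ (Equiv.swap 0 1 : Equiv.Perm (Fin 3))) :=
    (hi.comp (Equiv.swap 1 2)).symm.trans (d1.trans (hj.comp (Equiv.swap 0 1)))
  obtain ⟨c, hc, d3⟩ := d2
  have f0 := d3 0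
  have f1 := d3 1
  have f2 := d3 2
  simp only [Function.comp_apply] at f0 f1 f2
  have s1 : (Equiv.swap (0 : Fin 3) 1) ((Equiv.swap (1 : Fin 3) 2) 0) = 1 := by decide
  have s2 : (Equiv.swap (0 : Fin 3) 1) ((Equiv.swap (1 : Fin 3) 2) 1) = 2 := by decide
  have s3 : (Equiv.swap (0 : Fin 3) 1) ((Equiv.swap (1 : Fin 3) 2) 2) = 0 := by decide
  have s4 : (Equiv.swap (1 : Fin 3) 2) ((Equiv.swap (0 : Fin 3) 1) 0) = 2 := by decide
  have s5 : (Equiv.swap (1 : Fin 3) 2) ((Equiv.swap (0 : Fin 3) 1) 1) = 0 := by decide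
  have s6 : (Equiv.swap (1 : Fin 3) 2) ((Equiv.swap (0 : Fin 3) 1) 2) = 1 := by decide
  rw [s1, s4] at f0
  rw [s2, s5] at f1
  rw [s3, s6] at f2
  -- `W 1 = c W 2`, `W 2 = c W 0`, `W 0 = c W 1`
  have g1 : (1 + c + c ^ 2) * W 0 = 0 := by
    linear_combination sW - f0 - (1 + c) * f1
  have g2 := (mul_eq_zero.1 g1).resolve_right (hW 0)
  have g3 : W 0 ^ 2 + W 0 * W 1 + W 1 ^ 2 = 0 := by
    rw [f2]
    linear_combination W 1 ^ 2 * g2
  refine ⟨g3, fun hp1 => ?_⟩
  -- the first permutation is the inversion of the ratio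
  have h5 := hi.ratio 0 1
  simp only [Function.comp_apply] at h5
  rw [← map_div₀, Equiv.swap_apply_left, Equiv.swap_apply_right] at h5
  set l : k := W 0 / W 1 with hl
  have hl0 : l ≠ 0 := div_ne_zero (hW 0) (hW 1)
  have hl2 : l ^ 2 + l + 1 = 0 := by
    have := hW 1
    rw [hl]
    field_simp
    linear_combination g3
  have hl3 : l ^ 3 = 1 := by linear_combination (l - 1) * hl2
  have hinv : W 1 / W 0 = l⁻¹ := by rw [hl, inv_div]
  rw [hinv] at h5
  have h6 : iterateFrobenius k p i l = l := by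
    rw [iterateFrobenius_def]
    have h7 : p ^ i % 3 = 1 := by
      norm_num [Nat.pow_mod, hp1]
    obtain ⟨q, hq⟩ : ∃ q, p ^ i = 3 * q + 1 := ⟨p ^ i / 3, by omega⟩
    rw [hq, pow_succ, pow_mul, hl3, one_pow, one_mul]
  rw [h6] at h5
  have h8 : l ^ 2 = 1 := by
    field_simp at h5
    linear_combination h5
  have h9 : l = -2 := by linear_combination hl2 - h8
  rw [h9] at h8
  apply h3
  linear_combination h8

end finite

end Pool.Agent.N840.FC
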