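import Pool.Agent.N840.FC.Gal
import Pool.Agent.Y546.WQ.Cas
import Pool.Agent.Y290.WQ.NORM

/-!
# Local degrees and embeddings
-/

set_option autoImplicit false

namespace Pool.Agent.N840.FC

open NumberField IsDedekindDomain Polynomial Pool.Agent.Y546.WQ

section

variable {K N : Type} [Field K] [NumberField K] [Field N] [NumberField N]

theorem prod_eq_norm (hcard : Nat.card (K →+* N) = Module.finrank ℚ K) (w : 𝓞 K) :
    ∏ τ : K →+* N, RingOfIntegers.mapRingHom τ w = ((Algebra.norm ℤ w : ℤ) : 𝓞 N) := by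
  obtain ⟨f, -, h0, -, -, hf⟩ := Y290.WQ.mainNORM K w 0
  have hf := hf N hcard
  have e1 := eval_f hf (0 : 𝓞 N)
  simp only [zero_mul, add_zero] at e1
  have e2 : aeval (0 : 𝓞 N) f = ((f.coeff 0 : ℤ) : 𝓞 N) := by
    rw [aeval_def, eval₂_at_zero]
    rfl
  rw [e2, h0] at e1
  exact e1.symm

/-- the embeddings of `K` into `N` which induce the place `v` -/
noncomputable def emb (Q : Ideal (𝓞 N)) (v : Ideal (𝓞 K)) : Finset (K →+* N) := by
  classical
  exact Finset.univ.filter fun τ => Q.comap (RingOfIntegers.mapRingHom τ) = v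

theorem mem_emb (Q : Ideal (𝓞 N)) (v : Ideal (𝓞 K)) (τ : K →+* N) :
    τ ∈ emb Q v ↔ Q.comap (RingOfIntegers.mapRingHom τ) = v := by
  classical
  unfold emb
  simp

variable {p : ℕ} [Fact p.Prime]

theorem exists_avoid (Q : Ideal (𝓞 N)) (hQ : Q.IsPrime) (v : HeightOneSpectrum (𝓞 K)) (e : ℕ)
    (hQ0 : ∀ τ : K →+* N, Q.comap (RingOfIntegers.mapRingHom τ) ≠ ⊥) :
    ∃ β : 𝓞 K, β ∈ v.asIdeal ^ e ∧ ∀ τ : K →+* N,
      Q.comap (RingOfIntegers.mapRingHom τ) ≠ v.asIdeal →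
      β ∉ Q.comap (RingOfIntegers.mapRingHom τ) := by
  classical
  by_contra hcon
  push Not at hcon
  set s : Finset (K →+* N) := Finset.univ.filter fun τ =>
    Q.comap (RingOfIntegers.mapRingHom τ) ≠ v.asIdeal with hs
  by_cases hne : s.Nonempty
  · obtain ⟨τ0, -⟩ := hne
    have h1 : ((v.asIdeal ^ e : Ideal (𝓞 K)) : Set (𝓞 K)) ⊆
        ⋃ τ ∈ (s : Set (K →+* N)), ((Q.comap (RingOfIntegers.mapRingHom τ) : Ideal (𝓞 K)) :
          Set (𝓞 K)) := by
      intro β hβ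
      obtain ⟨τ, h1, h2⟩ := hcon β hβ
      simp only [Set.mem_iUnion]
      refine ⟨τ, ?_, h2⟩
      rw [Finset.mem_coe, hs, Finset.mem_filter]
      exact ⟨Finset.mem_univ _, h1⟩
    rw [Ideal.subset_union_prime τ0 τ0 (fun τ _ _ _ => hQ.comap _)] at h1
    obtain ⟨τ, hτ, h2⟩ := h1
    rw [hs, Finset.mem_filter] at hτ
    apply hτ.2
    have hP : (Q.comap (RingOfIntegers.mapRingHom τ)).IsPrime := hQ.comap _
    have h3 : v.asIdeal ≤ Q.comap (RingOfIntegers.mapRingHom τ) := hP.le_of_pow_le h2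
    exact (v.isMaximal.eq_of_le hP.ne_top h3).symm
  · rw [Finset.not_nonempty_iff_eq_empty] at hne
    obtain ⟨τ, h1, -⟩ := hcon 0 (zero_mem _)
    have : τ ∈ s := by
      rw [hs, Finset.mem_filter]
      exact ⟨Finset.mem_univ _, h1⟩
    rw [hne] at this
    simp at this

/-- the local degree is at most the number of embeddings which induce the place -/
theorem count_ge (hcard : Nat.card (K →+* N) = Module.finrank ℚ K)
    (hmp : Module.finrank ℚ K < p) (Q : Ideal (𝓞 N)) (hQ : Q.IsPrime)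
    (hQp : ((p : ℕ) : 𝓞 N) ∈ Q) (v : HeightOneSpectrum (𝓞 K)) (e f : ℕ)
    (hpe : ((p : ℕ) : 𝓞 K) ∈ v.asIdeal ^ e) (hf : Ideal.absNorm v.asIdeal = p ^ f) :
    e * f ≤ (emb Q v.asIdeal).card := by
  classical
  have hpp : p.Prime := Fact.out
  have hQ0 : Q ≠ ⊥ := by
    rintro rfl
    rw [Ideal.mem_bot, Nat.cast_eq_zero] at hQp
    exact hpp.ne_zero hQp
  have hmem : ∀ τ : K →+* N, ((p : ℕ) : 𝓞 K) ∈ Q.comap (RingOfIntegers.mapRingHom τ) := by
    intro τ
    rw [Ideal.mem_comap, map_natCast]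
    exact hQp
  obtain ⟨β, hβ, hβ'⟩ := exists_avoid Q hQ v e (by
    intro τ h
    have := hmem τ
    rw [h, Ideal.mem_bot, Nat.cast_eq_zero] at this
    exact hpp.ne_zero this)
  let q : HeightOneSpectrum (𝓞 N) := ⟨Q, hQ, hQ0⟩
  let val := q.intValuation
  have hp0 : ((p : ℕ) : 𝓞 N) ≠ 0 := by
    rw [Ne, Nat.cast_eq_zero]
    exact hpp.ne_zero
  have hvp0 : val ((p : ℕ) : 𝓞 N) ≠ 0 := q.intValuation_ne_zero _ hp0
  have hvp1 : val ((p : ℕ) : 𝓞 N) < 1 := (q.intValuation_lt_one_iff_mem _).2 hQp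
  -- the bad values
  let bad : (K →+* N) → Finset ℕ := fun τ => (Finset.range p).filter fun s =>
    val (RingOfIntegers.mapRingHom τ β + (s : 𝓞 N) * ((p : ℕ) : 𝓞 N)) < val ((p : ℕ) : 𝓞 N)
  have hbad : ∀ τ, (bad τ).card ≤ 1 := by
    intro τ
    rw [Finset.card_le_one]
    have main : ∀ a b : ℕ, a ∈ bad τ → b ∈ bad τ → a ≤ b → a = b := by
      intro a b ha hb hab
      rw [Finset.mem_filter, Finset.mem_range] at ha hb
      have h1 : val (((b - a : ℕ) : 𝓞 N) * ((p : ℕ) : 𝓞 N)) < val ((p : ℕ) : 𝓞 N) := by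
        have e1 : ((b - a : ℕ) : 𝓞 N) * ((p : ℕ) : 𝓞 N) =
            (RingOfIntegers.mapRingHom τ β + (b : 𝓞 N) * ((p : ℕ) : 𝓞 N)) -
            (RingOfIntegers.mapRingHom τ β + (a : 𝓞 N) * ((p : ℕ) : 𝓞 N)) := by
          rw [Nat.cast_sub hab]
          ring
        rw [e1]
        exact Valuation.map_sub_lt val hb.2 ha.2
      rw [map_mul] at h1
      have h2 : val ((b - a : ℕ) : 𝓞 N) < 1 := by
        by_contra hcon
        rw [not_lt] at hcon
        have h3 : 1 * val ((p : ℕ) : 𝓞 N) ≤ val ((b - a : ℕ) : 𝓞 N) * val ((p : ℕ) : 𝓞 N) :=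
          mul_le_mul_left hcon _
        rw [one_mul] at h3
        exact absurd h1 (not_lt.2 h3)
      have h3 := (q.intValuation_lt_one_iff_mem _).1 h2
      by_contra hne
      have h4 := int_notMem Q hQ p hpp hQp ((b - a : ℕ) : ℤ) (by
        intro hd
        have hd' : p ∣ b - a := by exact_mod_cast hd
        have := Nat.le_of_dvd (by omega) hd'
        omega)
      apply h4
      exact_mod_cast h3
    intro a ha b hb
    rcases le_total a b with h | h
    · exact main a b ha hb h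
    · exact (main b a hb ha h).symm
  obtain ⟨s, hs, hsb⟩ : ∃ s ∈ Finset.range p, s ∉ Finset.univ.biUnion bad := by
    by_contra hcon
    push Not at hcon
    have h1 : Finset.range p ⊆ Finset.univ.biUnion bad := hcon
    have h2 := Finset.card_le_card h1
    have h3 : (Finset.univ.biUnion bad).card ≤ ∑ τ : K →+* N, 1 :=
      Finset.card_biUnion_le.trans (Finset.sum_le_sum fun τ _ => hbad τ)
    rw [Finset.sum_const, Finset.card_univ, ← Nat.card_eq_fintype_card, hcard] at h3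
    rw [Finset.card_range] at h2
    simp at h3
    omega
  rw [Finset.mem_biUnion] at hsb
  push Not at hsb
  have hgood : ∀ τ : K →+* N, val ((p : ℕ) : 𝓞 N) ≤
      val (RingOfIntegers.mapRingHom τ (β + (s : 𝓞 K) * ((p : ℕ) : 𝓞 K))) := by
    intro τ
    have h1 := hsb τ (Finset.mem_univ _)
    have e1 : RingOfIntegers.mapRingHom τ (β + (s : 𝓞 K) * ((p : ℕ) : 𝓞 K)) =
        RingOfIntegers.mapRingHom τ β + (s : 𝓞 N) * ((p : ℕ) : 𝓞 N) := by
      rw [map_add, map_mul, map_natCast, map_natCast]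
    rw [e1]
    by_contra hcon
    rw [not_le] at hcon
    apply h1
    rw [Finset.mem_filter]
    exact ⟨hs, hcon⟩
  set γ : 𝓞 K := β + (s : 𝓞 K) * ((p : ℕ) : 𝓞 K) with hγ
  have hγe : γ ∈ v.asIdeal ^ e :=
    (v.asIdeal ^ e).add_mem hβ ((v.asIdeal ^ e).mul_mem_left _ hpe)
  have hγ1 : ∀ τ : K →+* N, τ ∉ emb Q v.asIdeal → val (RingOfIntegers.mapRingHom τ γ) = 1 := by
    intro τ hτ
    rw [mem_emb] at hτ
    have h1 := hβ' τ hτ
    have h2 : RingOfIntegers.mapRingHom τ γ ∉ Q := by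
      intro h3
      apply h1
      have h4 : γ ∈ Q.comap (RingOfIntegers.mapRingHom τ) := h3
      have h5 := (Q.comap (RingOfIntegers.mapRingHom τ)).sub_mem h4
        ((Q.comap (RingOfIntegers.mapRingHom τ)).mul_mem_left (s : 𝓞 K) (hmem τ))
      rwa [hγ, add_sub_cancel_right] at h5
    by_contra hne
    exact h2 ((q.intValuation_lt_one_iff_mem _).1 (lt_of_le_of_ne (q.intValuation_le_one _) hne))
  -- the valuation of the norm from below
  have hlow : val ((p : ℕ) : 𝓞 N) ^ (emb Q v.asIdeal).card ≤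
      val ((Algebra.norm ℤ γ : ℤ) : 𝓞 N) := by
    rw [← prod_eq_norm hcard γ, map_prod, ← Finset.prod_subset (Finset.subset_univ (emb Q v.asIdeal))
      (fun τ _ hτ => hγ1 τ hτ), ← Finset.prod_const]
    exact Finset.prod_le_prod' fun τ _ => hgood τ
  -- the valuation of the norm from above
  have hup : val ((Algebra.norm ℤ γ : ℤ) : 𝓞 N) ≤ val ((p : ℕ) : 𝓞 N) ^ (e * f) := by
    have h1 : Ideal.absNorm (v.asIdeal ^ e) ∣ Ideal.absNorm (Ideal.span {γ}) :=
      Ideal.absNorm_dvd_absNorm_of_le ((Ideal.span_singleton_le_iff_mem _).2 hγe)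
    rw [map_pow, hf, ← pow_mul, Ideal.absNorm_span_singleton, mul_comm f e] at h1
    have h2 : ((p ^ (e * f) : ℕ) : ℤ) ∣ Algebra.norm ℤ γ := Int.natCast_dvd.2 h1
    obtain ⟨u, hu⟩ := h2
    rw [hu, Int.cast_mul, map_mul]
    have h3 : val ((u : ℤ) : 𝓞 N) ≤ 1 := q.intValuation_le_one _
    have h4 : val (((p ^ (e * f) : ℕ) : ℤ) : 𝓞 N) = val ((p : ℕ) : 𝓞 N) ^ (e * f) := by
      rw [Int.cast_natCast, Nat.cast_pow, map_pow]
    rw [h4]
    calc val ((p : ℕ) : 𝓞 N) ^ (e * f) * val ((u : ℤ) : 𝓞 N)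
        ≤ val ((p : ℕ) : 𝓞 N) ^ (e * f) * 1 := mul_le_mul_right h3 _
      _ = _ := mul_one _
  by_contra hcon
  rw [not_le] at hcon
  have h1 : val ((p : ℕ) : 𝓞 N) ^ (e * f) < val ((p : ℕ) : 𝓞 N) ^ (emb Q v.asIdeal).card :=
    pow_lt_pow_right_of_lt_one₀ (zero_lt_iff.2 hvp0) hvp1 hcon
  exact absurd (hlow.trans hup) (not_le.2 h1)

end

end Pool.Agent.N840.FC
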