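import Pool.Agent.N840.FC.Res
import Pool.Agent.Y546.WQ.All

/-!
# The first case and the decomposition of `p`
-/

set_option autoImplicit false

namespace Pool.Agent.N840.FC

open NumberField IsDedekindDomain Polynomial Pool.Agent.Y546.WQ

section

variable {p : ℕ} [Fact p.Prime] {K N : Type} [Field K] [NumberField K] [Field N] [NumberField N]

/-- the family of triples of a solution is symmetric -/
theorem sym_of_pal (hp5 : 5 ≤ p) (hcard : Nat.card (K →+* N) = Module.finrank ℚ K)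
    (hpal : PalK p K) {F : Type} [Field F] [IsAlgClosed F] [CharP F p] (Q : Ideal (𝓞 N))
    (hQ : Q.IsPrime) (hQp : ((p : ℕ) : 𝓞 N) ∈ Q) (ψ : 𝓞 N →+* F)
    (hψ : ∀ w : 𝓞 N, ψ w = 0 ↔ w ∈ Q) {X Y Z : 𝓞 K} (hs : Sol p K X Y Z) :
    Sym (fam (K := K) ψ ![X, Y, Z]) := by
  have hpp : p.Prime := Fact.out
  have hmem : ∀ τ : K →+* N, ((p : ℕ) : 𝓞 K) ∈ Q.comap (RingOfIntegers.mapRingHom τ) := by
    intro τ
    rw [Ideal.mem_comap, map_natCast]
    exact hQp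
  have hcp : ∀ τ : K →+* N, X ∉ Q.comap (RingOfIntegers.mapRingHom τ) ∧
      Y ∉ Q.comap (RingOfIntegers.mapRingHom τ) ∧ Z ∉ Q.comap (RingOfIntegers.mapRingHom τ) :=
    fun τ => hs.cp _ (hQ.comap _) (hmem τ)
  have hX : ∀ τ : K →+* N, ψ (RingOfIntegers.mapRingHom τ X) ≠ 0 := fun τ h =>
    (hcp τ).1 ((hψ _).1 h)
  have hY : ∀ τ : K →+* N, ψ (RingOfIntegers.mapRingHom τ Y) ≠ 0 := fun τ h =>
    (hcp τ).2.1 ((hψ _).1 h)
  have hZ : ∀ τ : K →+* N, ψ (RingOfIntegers.mapRingHom τ Z) ≠ 0 := fun τ h =>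
    (hcp τ).2.2 ((hψ _).1 h)
  refine ⟨?_, ?_, ?_, ?_⟩
  · intro τ a
    fin_cases a
    · exact hX τ
    · exact hY τ
    · exact hZ τ
  · intro τ
    show ψ (RingOfIntegers.mapRingHom τ X) + ψ (RingOfIntegers.mapRingHom τ Y) +
      ψ (RingOfIntegers.mapRingHom τ Z) = 0
    rw [← map_add, ← map_add, hψ, ← map_add, ← map_add]
    exact lin_p hpp (Q.comap (RingOfIntegers.mapRingHom τ)) (hQ.comap _) (hmem τ) hs.eq
  · exact perm_of_prod _ _ _ _ hY hX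
      (fun t ht => pal_eval Y290.WQ.mainNORM hcard hpal ψ hs t ht)
  · exact perm_of_prod _ _ _ _ hZ hY
      (fun t ht => pal_eval Y290.WQ.mainNORM hcard hpal ψ hs.rot t ht)

end

/-- the Bernoulli conditions -/
def Bern (p m : ℕ) : Prop :=
  (2 * m + 3 ≤ p ∧ ∀ k ∈ irr p, k + 2 * m + 1 < p) ∨
    m * (((irr p).card + 1) * ((irr p).card + 2)) + 3 ≤ p

theorem Bern.le {p m : ℕ} (hm : 0 < m) (h : Bern p m) : 2 * m + 3 ≤ p := by
  rcases h with h | h
  · exact h.1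
  · have e : 2 ≤ ((irr p).card + 1) * ((irr p).card + 2) := by nlinarith [(irr p).card.zero_le]
    have := Nat.mul_le_mul_left m e
    omega

/-- `ω` and `-1` are not both `n`-th powers in the field with `q` elements -/
def TT (q n : ℕ) : Prop := ¬ 6 ∣ (q - 1) / Nat.gcd (q - 1) n

/-- the conditions on the decomposition of `p` -/
def Dec (K : Type) [Field K] [NumberField K] (p n : ℕ) : Prop :=
  -- (a) a prime of local degree larger than half of the degree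
  (∃ (v : HeightOneSpectrum (𝓞 K)) (e f : ℕ), ((p : ℕ) : 𝓞 K) ∈ v.asIdeal ^ e ∧
    Ideal.absNorm v.asIdeal = p ^ f ∧ Module.finrank ℚ K < 2 * (e * f) ∧
    (p % 3 = 1 ∨ TT (p ^ f) n)) ∨
  -- (b) a third
  (∃ (v : HeightOneSpectrum (𝓞 K)) (e f : ℕ), ((p : ℕ) : 𝓞 K) ∈ v.asIdeal ^ e ∧
    Ideal.absNorm v.asIdeal = p ^ f ∧ Module.finrank ℚ K < 3 * (e * f) ∧ ¬ 3 ∣ f ∧
    TT (p ^ f) n) ∨
  -- (c) a sixth
  (∃ (v : HeightOneSpectrum (𝓞 K)) (e f : ℕ), ((p : ℕ) : 𝓞 K) ∈ v.asIdeal ^ e ∧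
    Ideal.absNorm v.asIdeal = p ^ f ∧ Module.finrank ℚ K < 6 * (e * f) ∧ ¬ 2 ∣ f ∧ ¬ 3 ∣ f ∧
    TT (p ^ f) n ∧
    (¬ p ^ 2 ∣ 2 ^ (p - 1) - 1 ∨ ∀ r : 𝓞 K, r ^ (n / p) - 2 ∉ v.asIdeal)) ∨
  -- (d) degree prime to three
  (¬ 3 ∣ Module.finrank ℚ K ∧ ∀ v : HeightOneSpectrum (𝓞 K), ((p : ℕ) : 𝓞 K) ∈ v.asIdeal →
    TT (Ideal.absNorm v.asIdeal) n) ∨
  -- (e) odd degree
  (Odd (Module.finrank ℚ K) ∧ ¬ ∃ v₁ v₂ v₃ : HeightOneSpectrum (𝓞 K),
    v₁ ≠ v₂ ∧ v₁ ≠ v₃ ∧ v₂ ≠ v₃ ∧ ((p : ℕ) : 𝓞 K) ∈ v₁.asIdeal ∧ ((p : ℕ) : 𝓞 K) ∈ v₂.asIdeal ∧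
    ((p : ℕ) : 𝓞 K) ∈ v₃.asIdeal ∧ ∃ r₁ r₂ r₃ s₂ s₃ : 𝓞 K, r₁ ^ (n / p) - 2 ∈ v₁.asIdeal ∧
      r₂ ^ (n / p) - 2 ∈ v₂.asIdeal ∧ r₃ ^ (n / p) - 2 ∈ v₃.asIdeal ∧
      s₂ ^ (n / p) + 1 ∈ v₂.asIdeal ∧ s₃ ^ (n / p) + 1 ∈ v₃.asIdeal)

theorem main {p : ℕ} (hp : p.Prime) {K : Type} [Field K] [NumberField K]
    (hreg : Bern p (Module.finrank ℚ K)) (k : ℕ) (hK : Dec K p (p * k))
    {x y z : K} (hx : x ≠ 0) (hy : y ≠ 0) (hz : z ≠ 0)
    (h : x ^ (p * k) + y ^ (p * k) = z ^ (p * k))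
    (hv : ∀ v : HeightOneSpectrum (𝓞 K), ((p : ℕ) : 𝓞 K) ∈ v.asIdeal →
      v.valuation K x = v.valuation K y ∧ v.valuation K y = v.valuation K z) : False := by
  classical
  have hfact : Fact p.Prime := ⟨hp⟩
  have hm := Module.finrank_pos (R := ℚ) (M := K)
  have h5 : 2 * Module.finrank ℚ K + 3 ≤ p := hreg.le hm
  have hp5 : 5 ≤ p := by omega
  have hp2 : p ≠ 2 := by omega
  have hp3 : p ≠ 3 := by omega
  have hodd : Odd p := hp.odd_of_ne_two hp2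
  obtain ⟨E, _, _, ⟨c⟩⟩ := Y978.WQ.main p hp2
  obtain ⟨N, _, _, i, hcard, hD⟩ := Y258.WQ.mainDOWNG p E c K (by omega)
  have hD' : Dn p E N i := hD
  have hpal : PalK p K := palK aUNITA Y261.WQ.main Y919.WQ.mainLAMA Y290.WQ.mainNORM
    (Y510.WQ.mainPOLBA Y275.WQ.mainCOREA) (Y590.WQ.mainPOLE Y780.WQ.mainPOLE1 Y286.WQ.mainPOLE2)
    Y61.WQ.mainBER c i hD' hcard hreg
  -- the scaled solution
  obtain ⟨a, ha, X, Y, Z, hXa, hYa, hZa, hX0, hY0, hZ0, hcp, -⟩ := prepA hp (pow_ne_zero k hx)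
    (pow_ne_zero k hy) (neg_ne_zero.2 (pow_ne_zero k hz)) (fun v hpv => by
      obtain ⟨h1, h2⟩ := hv v hpv
      rw [Valuation.map_neg, map_pow, map_pow, map_pow, h1, h2]
      exact ⟨rfl, rfl⟩)
  have hXYZ : X ^ p + Y ^ p + Z ^ p = 0 := by
    apply RingOfIntegers.coe_injective
    rw [map_zero, map_add, map_add, map_pow, map_pow, map_pow, hXa, hYa, hZa, mul_pow, mul_pow,
      mul_pow, hodd.neg_pow, ← pow_mul, ← pow_mul, ← pow_mul, mul_comm k p]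
    linear_combination a ^ p * h
  have hs : Sol p K X Y Z := ⟨hX0, hY0, hZ0, hXYZ, hcp⟩
  -- the residue field of a field containing all conjugates
  obtain ⟨Q, hQ, hQp⟩ := exists_above (K := N) p hp
  have hQ0 : Q ≠ ⊥ := by
    rintro rfl
    rw [Ideal.mem_bot, Nat.cast_eq_zero] at hQp
    exact hp.ne_zero hQp
  have hQm : Q.IsMaximal := hQ.isMaximal hQ0
  let _ : Field (𝓞 N ⧸ Q) := Ideal.Quotient.field Q
  have hch : CharP (𝓞 N ⧸ Q) p := charP_quot Q hQ p hp hQp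
  let F := AlgebraicClosure (𝓞 N ⧸ Q)
  have hchF : CharP F p := charP_of_injective_algebraMap (algebraMap (𝓞 N ⧸ Q) F).injective p
  let ψ : 𝓞 N →+* F := (algebraMap (𝓞 N ⧸ Q) F).comp (Ideal.Quotient.mk Q)
  have hψ : ∀ w : 𝓞 N, ψ w = 0 ↔ w ∈ Q := by
    intro w
    constructor
    · intro h
      have h1 : algebraMap (𝓞 N ⧸ Q) F (Ideal.Quotient.mk Q w) = 0 := h
      rw [map_eq_zero_iff _ (algebraMap (𝓞 N ⧸ Q) F).injective] at h1
      exact Ideal.Quotient.eq_zero_iff_mem.1 h1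
    · intro h
      show algebraMap (𝓞 N ⧸ Q) F (Ideal.Quotient.mk Q w) = 0
      rw [Ideal.Quotient.eq_zero_iff_mem.2 h, map_zero]
  have natF : ∀ q : ℕ, 0 < q → q < p → (q : F) ≠ 0 := by
    intro q hq hqp
    rw [Ne, CharP.cast_eq_zero_iff F p]
    intro hd
    have := Nat.le_of_dvd hq hd
    omega
  have h3F : (3 : F) ≠ 0 := by exact_mod_cast natF 3 (by norm_num) (by omega)
  have h2F : (2 : F) ≠ 0 := by exact_mod_cast natF 2 (by norm_num) (by omega)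
  have S : Sym (fam (K := K) ψ ![X, Y, Z]) := sym_of_pal hp5 hcard hpal Q hQ hQp ψ hψ hs
  have hPp : ∀ τ : K →+* N, ((p : ℕ) : 𝓞 K) ∈ Q.comap (RingOfIntegers.mapRingHom τ) := by
    intro τ
    rw [Ideal.mem_comap, map_natCast]
    exact hQp
  have hP0 : ∀ τ : K →+* N, Q.comap (RingOfIntegers.mapRingHom τ) ≠ ⊥ := by
    intro τ h0
    have := hPp τ
    rw [h0, Ideal.mem_bot, Nat.cast_eq_zero] at this
    exact hp.ne_zero this
  have natP : ∀ (v : HeightOneSpectrum (𝓞 K)), ((p : ℕ) : 𝓞 K) ∈ v.asIdeal → ∀ q : ℕ, 0 < q →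
      q < p → (q : 𝓞 K) ∉ v.asIdeal := by
    intro v hpv q hq hqp h0
    have h1 := int_notMem v.asIdeal v.isPrime p hp hpv (q : ℤ) (by
      intro hd
      have hd' : p ∣ q := by exact_mod_cast hd
      have := Nat.le_of_dvd hq hd'
      omega)
    apply h1
    exact_mod_cast h0
  have lin : ∀ v : HeightOneSpectrum (𝓞 K), ((p : ℕ) : 𝓞 K) ∈ v.asIdeal → X + Y + Z ∈ v.asIdeal :=
    fun v hpv => lin_p hp v.asIdeal v.isPrime hpv hXYZ
  have hV : ∀ v : HeightOneSpectrum (𝓞 K), ((p : ℕ) : 𝓞 K) ∈ v.asIdeal →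
      ∀ b, (![X, Y, Z] : Fin 3 → 𝓞 K) b ∉ v.asIdeal := by
    intro v hpv b
    obtain ⟨h1, h2, h3⟩ := hcp v.asIdeal v.isPrime hpv
    fin_cases b
    · exact h1
    · exact h2
    · exact h3
  -- no primitive cube root of unity
  have noOm : ∀ v : HeightOneSpectrum (𝓞 K), ((p : ℕ) : 𝓞 K) ∈ v.asIdeal →
      TT (Ideal.absNorm v.asIdeal) (p * k) →
      X ^ 2 + X * Y + Y ^ 2 ∉ v.asIdeal := by
    intro v hpv hj hmem
    have hvm : v.asIdeal.IsMaximal := v.isMaximal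
    let _ : Field (𝓞 K ⧸ v.asIdeal) := Ideal.Quotient.field v.asIdeal
    have hfin : Finite (𝓞 K ⧸ v.asIdeal) := Ideal.finiteQuotientOfFreeOfNeBot v.asIdeal v.ne_bot
    obtain ⟨r, hr⟩ := exists_res v hz (hv v hpv).2
    have h1 := hr k a Y (-Z) hYa (by rw [map_neg, hZa]; ring)
    have hmem2 : Y ^ 2 + Y * Z + Z ^ 2 ∈ v.asIdeal := by
      have e : Y ^ 2 + Y * Z + Z ^ 2 = (X ^ 2 + X * Y + Y ^ 2) + (Z - X) * (X + Y + Z) := by ring
      rw [e]
      exact v.asIdeal.add_mem hmem (v.asIdeal.mul_mem_left _ (lin v hpv))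
    rw [← Ideal.Quotient.eq_zero_iff_mem, map_sub, map_mul, map_pow, map_neg] at h1
    rw [← Ideal.Quotient.eq_zero_iff_mem] at hmem2
    simp only [map_add, map_mul, map_pow] at hmem2
    have hZ1 : Ideal.Quotient.mk v.asIdeal Z ≠ 0 := fun h0 =>
      (hcp v.asIdeal v.isPrime hpv).2.2 (Ideal.Quotient.eq_zero_iff_mem.1 h0)
    have natv : ∀ q : ℕ, 0 < q → q < p → (q : 𝓞 K ⧸ v.asIdeal) ≠ 0 := by
      intro q hq hqp h0
      apply natP v hpv q hq hqp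
      rw [← Ideal.Quotient.eq_zero_iff_mem, map_natCast]
      exact h0
    have h3v : (3 : 𝓞 K ⧸ v.asIdeal) ≠ 0 := by exact_mod_cast natv 3 (by norm_num) (by omega)
    have h2v : (2 : 𝓞 K ⧸ v.asIdeal) ≠ 0 := by exact_mod_cast natv 2 (by norm_num) (by omega)
    have h6 := six_dvd h2v h3v
      (l := Ideal.Quotient.mk v.asIdeal Y / Ideal.Quotient.mk v.asIdeal Z)
      (m := Ideal.Quotient.mk v.asIdeal r) k (by
        field_simp
        linear_combination hmem2) (by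
        field_simp
        linear_combination -h1)
    have hN : Ideal.absNorm v.asIdeal = Nat.card (𝓞 K ⧸ v.asIdeal) := rfl
    apply hj
    rw [hN]
    have hcop : Nat.Coprime (Nat.card (𝓞 K ⧸ v.asIdeal) - 1) p := by
      rw [Nat.coprime_comm, Nat.Prime.coprime_iff_not_dvd hp]
      intro hd
      have hch2 : CharP (𝓞 K ⧸ v.asIdeal) p := charP_quot v.asIdeal v.isPrime p hp hpv
      have hft : Fintype (𝓞 K ⧸ v.asIdeal) := Fintype.ofFinite _
      have h7 : p ∣ Nat.card (𝓞 K ⧸ v.asIdeal) := by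
        rw [← CharP.cast_eq_zero_iff (𝓞 K ⧸ v.asIdeal) p, Nat.card_eq_fintype_card]
        exact FiniteField.cast_card_eq_zero _
      have h8 : 0 < Nat.card (𝓞 K ⧸ v.asIdeal) := Nat.card_pos
      have h9 := (Nat.dvd_sub h7 hd)
      have e : Nat.card (𝓞 K ⧸ v.asIdeal) - (Nat.card (𝓞 K ⧸ v.asIdeal) - 1) = 1 := by omega
      rw [e] at h9
      exact hp.one_lt.ne' (Nat.dvd_one.1 h9)
    rw [Nat.Coprime.gcd_mul_left_cancel_right k hcop.symm]
    exact h6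
  -- residues
  have res : ∀ (v : HeightOneSpectrum (𝓞 K)), ((p : ℕ) : 𝓞 K) ∈ v.asIdeal →
      (X - Y ∈ v.asIdeal → ∃ r : 𝓞 K, r ^ k - 2 ∈ v.asIdeal) ∧
      (X - Z ∈ v.asIdeal → (∃ r : 𝓞 K, r ^ k - 2 ∈ v.asIdeal) ∧ ∃ r : 𝓞 K, r ^ k + 1 ∈ v.asIdeal) ∧
      (Y - Z ∈ v.asIdeal → (∃ r : 𝓞 K, r ^ k - 2 ∈ v.asIdeal) ∧
        ∃ r : 𝓞 K, r ^ k + 1 ∈ v.asIdeal) := by
    intro v hpv
    obtain ⟨h1, h2⟩ := hv v hpv
    obtain ⟨hX1, hY1, hZ1⟩ := hcp v.asIdeal v.isPrime hpv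
    have hl := lin v hpv
    have hvP := v.isPrime
    refine ⟨fun hXY => ?_, fun hXZ => ?_, fun hYZ => ?_⟩
    · obtain ⟨r, hr⟩ := exists_res v hx ((h1.trans h2).symm)
      refine ⟨r, ?_⟩
      have e1 := hr k a (-Z) X (by rw [map_neg, hZa]; ring) hXa
      have e2 : (r ^ k - 2) * X ∈ v.asIdeal := by
        have : (r ^ k - 2) * X = -(-Z - r ^ k * X) - (X + Y + Z) - (X - Y) := by ring
        rw [this]
        exact v.asIdeal.sub_mem (v.asIdeal.sub_mem (v.asIdeal.neg_mem e1) hl) hXY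
      exact (hvP.mem_or_mem e2).resolve_right hX1
    · constructor
      · obtain ⟨r, hr⟩ := exists_res v hz h2
        refine ⟨r, ?_⟩
        have e1 := hr k a Y (-Z) hYa (by rw [map_neg, hZa]; ring)
        have e2 : (r ^ k - 2) * Z ∈ v.asIdeal := by
          have : (r ^ k - 2) * Z = (Y - r ^ k * -Z) - (X + Y + Z) + (X - Z) := by ring
          rw [this]
          exact v.asIdeal.add_mem (v.asIdeal.sub_mem e1 hl) hXZ
        exact (hvP.mem_or_mem e2).resolve_right hZ1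
      · obtain ⟨r, hr⟩ := exists_res v hz (h1.trans h2)
        refine ⟨r, ?_⟩
        have e1 := hr k a X (-Z) hXa (by rw [map_neg, hZa]; ring)
        have e2 : (r ^ k + 1) * Z ∈ v.asIdeal := by
          have : (r ^ k + 1) * Z = (X - r ^ k * -Z) - (X - Z) := by ring
          rw [this]
          exact v.asIdeal.sub_mem e1 hXZ
        exact (hvP.mem_or_mem e2).resolve_right hZ1
    · constructor
      · obtain ⟨r, hr⟩ := exists_res v hz (h1.trans h2)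
        refine ⟨r, ?_⟩
        have e1 := hr k a X (-Z) hXa (by rw [map_neg, hZa]; ring)
        have e2 : (r ^ k - 2) * Z ∈ v.asIdeal := by
          have : (r ^ k - 2) * Z = (X - r ^ k * -Z) - (X + Y + Z) + (Y - Z) := by ring
          rw [this]
          exact v.asIdeal.add_mem (v.asIdeal.sub_mem e1 hl) hYZ
        exact (hvP.mem_or_mem e2).resolve_right hZ1
      · obtain ⟨r, hr⟩ := exists_res v hz h2
        refine ⟨r, ?_⟩
        have e1 := hr k a Y (-Z) hYa (by rw [map_neg, hZa]; ring)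
        have e2 : (r ^ k + 1) * Z ∈ v.asIdeal := by
          have : (r ^ k + 1) * Z = (Y - r ^ k * -Z) - (Y - Z) := by ring
          rw [this]
          exact v.asIdeal.sub_mem e1 hYZ
        exact (hvP.mem_or_mem e2).resolve_right hZ1
  have pos : ∀ (e f : ℕ) (v : HeightOneSpectrum (𝓞 K)), ((p : ℕ) : 𝓞 K) ∈ v.asIdeal ^ e →
      0 < e * f → ((p : ℕ) : 𝓞 K) ∈ v.asIdeal := by
    intro e f v hpe hef
    exact Ideal.pow_le_self (fun h => by rw [h, zero_mul] at hef; omega) hpe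
  have hdiv : p * k / p = k := Nat.mul_div_cancel_left k hp.pos
  rcases hK with ⟨v, e, f, hpe, hf, hef, hc⟩ | ⟨v, e, f, hpe, hf, hef, h3f, hc⟩ |
    ⟨v, e, f, hpe, hf, hef, h2f, h3f, hc, hc'⟩ | ⟨hm3, hc⟩ | ⟨hmo, hc⟩
  · have hpv := pos e f v hpe (by omega)
    obtain ⟨k1, k2⟩ := (place_main hp5 hcard (by omega) Q hQ hQp ψ hψ _ S v e f hpe hf
      (hV v hpv) (lin v hpv)).1 hef
    rcases hc with hc | hc
    · exact k2 hc
    · exact noOm v hpv (hf ▸ hc) k1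
  · have hpv := pos e f v hpe (by omega)
    have k1 := (place_main hp5 hcard (by omega) Q hQ hQp ψ hψ _ S v e f hpe hf
      (hV v hpv) (lin v hpv)).2.1 hef h3f
    exact noOm v hpv (hf ▸ hc) k1
  · have hpv := pos e f v hpe (by omega)
    have k1 := (place_main hp5 hcard (by omega) Q hQ hQp ψ hψ _ S v e f hpe hf
      (hV v hpv) (lin v hpv)).2.2 hef (by
        have : Nat.Coprime (2 * 3) f := Nat.Coprime.mul_left
          ((Nat.Prime.coprime_iff_not_dvd Nat.prime_two).2 h2f)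
          ((Nat.Prime.coprime_iff_not_dvd Nat.prime_three).2 h3f)
        exact this)
    rcases k1 with k1 | k1
    · have k2 : X - Y ∈ v.asIdeal ∨ Y - Z ∈ v.asIdeal ∨ Z - X ∈ v.asIdeal := k1
      rcases hc' with hW | hc'
      · rcases k2 with k2 | k2 | k2
        · exact wief (by omega) hp2 hW v.asIdeal v.isPrime hpv hs k2
        · exact wief (by omega) hp2 hW v.asIdeal v.isPrime hpv hs.rot k2
        · exact wief (by omega) hp2 hW v.asIdeal v.isPrime hpv hs.rot.rot k2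
      · rw [hdiv] at hc'
        obtain ⟨r1, r2, r3⟩ := res v hpv
        rcases k2 with k2 | k2 | k2
        · obtain ⟨r, hr⟩ := r1 k2
          exact hc' r hr
        · obtain ⟨⟨r, hr⟩, -⟩ := r3 k2
          exact hc' r hr
        · obtain ⟨⟨r, hr⟩, -⟩ := r2 (by
            have := v.asIdeal.neg_mem k2
            rwa [neg_sub] at this)
          exact hc' r hr
    · exact noOm v hpv (hf ▸ hc) k1
  · obtain ⟨τ, hτ⟩ := S.cube h3F (by
      rw [← Nat.card_eq_fintype_card, hcard]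
      exact hm3)
    let v : HeightOneSpectrum (𝓞 K) := ⟨Q.comap (RingOfIntegers.mapRingHom τ), hQ.comap _, hP0 τ⟩
    refine noOm v (hPp τ) (hc v (hPp τ)) ?_
    show X ^ 2 + X * Y + Y ^ 2 ∈ Q.comap (RingOfIntegers.mapRingHom τ)
    rw [Ideal.mem_comap, ← hψ]
    simp only [map_add, map_mul, map_pow]
    exact hτ
  · rw [hdiv] at hc
    apply hc
    obtain ⟨τ1, h1⟩ := S.odd h2F (by
      rw [← Nat.card_eq_fintype_card, hcard]
      exact hmo)
    -- the two other coincidences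
    obtain ⟨β, hβ⟩ := S.all (Equiv.swap (1 : Fin 3) 2)
    obtain ⟨β', hβ'⟩ := S.all (Equiv.swap (0 : Fin 3) 2)
    have h2 : fam ψ ![X, Y, Z] (β τ1) 0 = fam ψ ![X, Y, Z] (β τ1) 2 := by
      obtain ⟨d, hd, hd'⟩ := hβ τ1
      have e0 := hd' 0
      have e2 := hd' 2
      have s0 : (Equiv.swap (1 : Fin 3) 2) 0 = 0 := by decide
      simp only [Function.comp_apply] at e0 e2
      rw [s0] at e0
      rw [Equiv.swap_apply_right] at e2
      rw [e0, e2, h1]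
    have h3 : fam ψ ![X, Y, Z] (β' τ1) 1 = fam ψ ![X, Y, Z] (β' τ1) 2 := by
      obtain ⟨d, hd, hd'⟩ := hβ' τ1
      have e1 := hd' 1
      have e2 := hd' 2
      have s1 : (Equiv.swap (0 : Fin 3) 2) 1 = 1 := by decide
      simp only [Function.comp_apply] at e1 e2
      rw [s1] at e1
      rw [Equiv.swap_apply_right] at e2
      rw [e1, e2, h1]
    let pl : (K →+* N) → HeightOneSpectrum (𝓞 K) := fun τ =>
      ⟨Q.comap (RingOfIntegers.mapRingHom τ), hQ.comap _, hP0 τ⟩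
    have m1 : X - Y ∈ (pl τ1).asIdeal := by
      show X - Y ∈ Q.comap (RingOfIntegers.mapRingHom τ1)
      rw [Ideal.mem_comap, ← hψ, map_sub, map_sub]
      exact sub_eq_zero.2 h1
    have m2 : X - Z ∈ (pl (β τ1)).asIdeal := by
      show X - Z ∈ Q.comap (RingOfIntegers.mapRingHom (β τ1))
      rw [Ideal.mem_comap, ← hψ, map_sub, map_sub]
      exact sub_eq_zero.2 h2
    have m3 : Y - Z ∈ (pl (β' τ1)).asIdeal := by
      show Y - Z ∈ Q.comap (RingOfIntegers.mapRingHom (β' τ1))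
      rw [Ideal.mem_comap, ← hψ, map_sub, map_sub]
      exact sub_eq_zero.2 h3
    have dis : ∀ v : HeightOneSpectrum (𝓞 K), ((p : ℕ) : 𝓞 K) ∈ v.asIdeal →
        ∀ A B C : 𝓞 K, A ∉ v.asIdeal → A + B + C ∈ v.asIdeal → A - B ∈ v.asIdeal →
        A - C ∈ v.asIdeal → False := by
      intro v hpv A B C hA hABC hAB hAC
      have h4 : ((3 : ℕ) : 𝓞 K) * A ∈ v.asIdeal := by
        have e : ((3 : ℕ) : 𝓞 K) * A = (A + B + C) + (A - B) + (A - C) := by
          push_cast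
          ring
        rw [e]
        exact v.asIdeal.add_mem (v.asIdeal.add_mem hABC hAB) hAC
      rcases v.isPrime.mem_or_mem h4 with h5 | h5
      · exact natP v hpv 3 (by norm_num) (by omega) h5
      · exact hA h5
    have p1 : ((p : ℕ) : 𝓞 K) ∈ (pl τ1).asIdeal := hPp τ1
    have p2 : ((p : ℕ) : 𝓞 K) ∈ (pl (β τ1)).asIdeal := hPp _
    have p3 : ((p : ℕ) : 𝓞 K) ∈ (pl (β' τ1)).asIdeal := hPp _
    have sw : ∀ (v : HeightOneSpectrum (𝓞 K)) (A B : 𝓞 K), A - B ∈ v.asIdeal →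
        B - A ∈ v.asIdeal := by
      intro v A B h
      have := v.asIdeal.neg_mem h
      rwa [neg_sub] at this
    refine ⟨pl τ1, pl (β τ1), pl (β' τ1), ?_, ?_, ?_, p1, p2, p3, ?_⟩
    · intro h12
      refine dis _ p1 X Y Z (hcp _ (pl τ1).isPrime p1).1 (lin _ p1) m1 ?_
      rw [h12]
      exact m2
    · intro h13
      refine dis _ p1 Y X Z (hcp _ (pl τ1).isPrime p1).2.1 ?_ (sw _ _ _ m1) ?_
      · have e : Y + X + Z = X + Y + Z := by ring
        rw [e]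
        exact lin _ p1
      · rw [h13]
        exact m3
    · intro h23
      refine dis _ p2 Z X Y (hcp _ (pl (β τ1)).isPrime p2).2.2 ?_ (sw _ _ _ m2) ?_
      · have e : Z + X + Y = X + Y + Z := by ring
        rw [e]
        exact lin _ p2
      · rw [h23]
        exact sw _ _ _ m3
    · obtain ⟨r1, hr1⟩ := (res _ p1).1 m1
      obtain ⟨⟨r2, hr2⟩, s2, hs2⟩ := (res _ p2).2.1 m2
      obtain ⟨⟨r3, hr3⟩, s3, hs3⟩ := (res _ p3).2.2 m3
      exact ⟨r1, r2, r3, s2, s3, hr1, hr2, hr3, hs2, hs3⟩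

end Pool.Agent.N840.FC
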