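import Pool.Agent.N840.FC.Sym

/-!
# Symmetric families at a place of large local degree
-/

set_option autoImplicit false

namespace Pool.Agent.N840.FC

open NumberField IsDedekindDomain Polynomial Pool.Agent.Y546.WQ

theorem Pr.fixed3 {F : Type*} [Field F] {u : Fin 3 → F} (h3 : (3 : F) ≠ 0) (hu : ∀ i, u i ≠ 0)
    (su : u 0 + u 1 + u 2 = 0)
    {π : Equiv.Perm (Fin 3)} (hπ : π ≠ 1) (hπ3 : π ^ 3 = 1) (h : Pr (u ∘ π) u) :
    u 0 ^ 2 + u 0 * u 1 + u 1 ^ 2 = 0 := by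
  obtain ⟨c, hc, h⟩ := h
  have hcase : (π 0 = 1 ∧ π 1 = 2 ∧ π 2 = 0) ∨ (π 0 = 2 ∧ π 1 = 0 ∧ π 2 = 1) := by
    rcases perm_cases π hπ with rfl | rfl | rfl | h' | h'
    · exact absurd hπ3 (by decide)
    · exact absurd hπ3 (by decide)
    · exact absurd hπ3 (by decide)
    · exact Or.inl h'
    · exact Or.inr h'
  have h0 := h 0
  have h1 := h 1
  have h2 := h 2
  simp only [Function.comp_apply] at h0 h1 h2
  rcases hcase with ⟨a0, a1, a2⟩ | ⟨a0, a1, a2⟩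
  · rw [a0] at h0
    rw [a1] at h1
    have e1 : (1 + c + c ^ 2) * u 0 = 0 := by
      linear_combination su - (1 + c) * h0 - h1
    have e2 := (mul_eq_zero.1 e1).resolve_right (hu 0)
    rw [h0]
    linear_combination u 0 ^ 2 * e2
  · rw [a0] at h0
    rw [a1] at h1
    have e1 : (1 + c + c ^ 2) * u 1 = 0 := by
      linear_combination su - (1 + c) * h1 - h0
    have e2 := (mul_eq_zero.1 e1).resolve_right (hu 1)
    rw [h1]
    linear_combination u 1 ^ 2 * e2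

section

variable {p : ℕ} [Fact p.Prime] {K N : Type} [Field K] [NumberField K] [Field N] [NumberField N]
  {F : Type} [Field F]

/-- the family of triples of the conjugates -/
def fam (ψ : 𝓞 N →+* F) (V : Fin 3 → 𝓞 K) (τ : K →+* N) (a : Fin 3) : F :=
  ψ (RingOfIntegers.mapRingHom τ (V a))

theorem perm_six (π : Equiv.Perm (Fin 3)) : π ^ 6 = 1 := by
  have h := pow_card_eq_one (x := π)
  rwa [Fintype.card_perm, Fintype.card_fin] at h

theorem comp_mul {F : Type*} (u : Fin 3 → F) (π π' : Equiv.Perm (Fin 3)) :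
    (u ∘ π) ∘ π' = u ∘ (π * π' : Equiv.Perm (Fin 3)) := rfl

theorem comp_comp_inv {F : Type*} (u : Fin 3 → F) (π : Equiv.Perm (Fin 3)) :
    (u ∘ π) ∘ (π⁻¹ : Equiv.Perm (Fin 3)) = u := by
  funext c
  have h : π (π⁻¹ c) = c := by
    rw [← Equiv.Perm.mul_apply, mul_inv_cancel, Equiv.Perm.one_apply]
  simp only [Function.comp_apply, h]

theorem rot_pow : ∀ a b : Fin 3, a ≠ b →
    (Equiv.swap (0 : Fin 3) 1 * Equiv.swap 1 2) ^ (a : ℕ) *
      ((Equiv.swap (0 : Fin 3) 1 * Equiv.swap 1 2) ^ (b : ℕ))⁻¹ ≠ 1 ∧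
    ((Equiv.swap (0 : Fin 3) 1 * Equiv.swap 1 2) ^ (a : ℕ) *
      ((Equiv.swap (0 : Fin 3) 1 * Equiv.swap 1 2) ^ (b : ℕ))⁻¹) ^ 3 = 1 := by decide

theorem place_main (hp5 : 5 ≤ p) (hcard : Nat.card (K →+* N) = Module.finrank ℚ K)
    (hmp : Module.finrank ℚ K < p) (Q : Ideal (𝓞 N)) (hQ : Q.IsPrime)
    (hQp : ((p : ℕ) : 𝓞 N) ∈ Q) (ψ : 𝓞 N →+* F) (hψ : ∀ w : 𝓞 N, ψ w = 0 ↔ w ∈ Q)
    (V : Fin 3 → 𝓞 K) (S : Sym (fam (K := K) ψ V)) (v : HeightOneSpectrum (𝓞 K)) (e f : ℕ)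
    (hpe : ((p : ℕ) : 𝓞 K) ∈ v.asIdeal ^ e) (hf : Ideal.absNorm v.asIdeal = p ^ f)
    (hV : ∀ a, V a ∉ v.asIdeal) (hsum : V 0 + V 1 + V 2 ∈ v.asIdeal) :
    (Module.finrank ℚ K < 2 * (e * f) →
      V 0 ^ 2 + V 0 * V 1 + V 1 ^ 2 ∈ v.asIdeal ∧ p % 3 ≠ 1) ∧
    (Module.finrank ℚ K < 3 * (e * f) → ¬ 3 ∣ f →
      V 0 ^ 2 + V 0 * V 1 + V 1 ^ 2 ∈ v.asIdeal) ∧
    (Module.finrank ℚ K < 6 * (e * f) → Nat.Coprime 6 f →
      (V 0 - V 1 ∈ v.asIdeal ∨ V 1 - V 2 ∈ v.asIdeal ∨ V 2 - V 0 ∈ v.asIdeal) ∨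
      V 0 ^ 2 + V 0 * V 1 + V 1 ^ 2 ∈ v.asIdeal) := by
  classical
  have hpp : p.Prime := Fact.out
  have hcnt := count_ge hcard hmp Q hQ hQp v e f hpe hf
  set T := emb (K := K) Q v.asIdeal with hT
  have hcardι : Fintype.card (K →+* N) = Module.finrank ℚ K := by
    rw [← hcard, Nat.card_eq_fintype_card]
  have hvm : v.asIdeal.IsMaximal := v.isMaximal
  by_cases he : e * f = 0
  · rw [he]
    have := Module.finrank_pos (R := ℚ) (M := K)
    refine ⟨fun h => by omega, fun h => by omega, fun h => by omega⟩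
  have hpv : ((p : ℕ) : 𝓞 K) ∈ v.asIdeal :=
    Ideal.pow_le_self (fun h => he (by rw [h, zero_mul])) hpe
  let _ : Field (𝓞 K ⧸ v.asIdeal) := Ideal.Quotient.field v.asIdeal
  have hfin : Finite (𝓞 K ⧸ v.asIdeal) := Ideal.finiteQuotientOfFreeOfNeBot v.asIdeal v.ne_bot
  have hch : CharP (𝓞 K ⧸ v.asIdeal) p := charP_quot v.asIdeal v.isPrime p hpp hpv
  have hck : Nat.card (𝓞 K ⧸ v.asIdeal) = p ^ f := by
    rw [← hf]
    rfl
  have h3 : (3 : 𝓞 K ⧸ v.asIdeal) ≠ 0 := by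
    have h : ((3 : ℕ) : 𝓞 K ⧸ v.asIdeal) ≠ 0 := by
      rw [Ne, CharP.cast_eq_zero_iff (𝓞 K ⧸ v.asIdeal) p]
      intro hd
      have := Nat.le_of_dvd (by norm_num) hd
      omega
    exact_mod_cast h
  set W : Fin 3 → 𝓞 K ⧸ v.asIdeal := fun a => Ideal.Quotient.mk v.asIdeal (V a) with hW
  have W0 : ∀ a, W a ≠ 0 := fun a h => hV a (Ideal.Quotient.eq_zero_iff_mem.1 h)
  have sW : W 0 + W 1 + W 2 = 0 := by
    simp only [hW]
    rw [← map_add, ← map_add]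
    exact Ideal.Quotient.eq_zero_iff_mem.2 hsum
  -- the embeddings of the residue field
  have hker : ∀ τ : K →+* N, τ ∈ T → ∀ a ∈ v.asIdeal,
      (ψ.comp (RingOfIntegers.mapRingHom τ : 𝓞 K →+* 𝓞 N)) a = 0 := by
    intro τ hτ a ha
    rw [hT, mem_emb] at hτ
    rw [← hτ] at ha
    exact (hψ _).2 ha
  have conj : ∀ τ ∈ T, ∀ τ' ∈ T, ∀ π : Equiv.Perm (Fin 3),
      Pr (fam ψ V τ') (fam ψ V τ ∘ π) →
      ∃ j : ℕ, Pr (iterateFrobenius (𝓞 K ⧸ v.asIdeal) p j ∘ W) (W ∘ π) := by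
    intro τ hτ τ' hτ' π h
    exact conj_triple (Ideal.Quotient.lift v.asIdeal _ (hker τ hτ))
      (Ideal.Quotient.lift v.asIdeal _ (hker τ' hτ')) W0 sW π h
  have omega_mem : W 0 ^ 2 + W 0 * W 1 + W 1 ^ 2 = 0 →
      V 0 ^ 2 + V 0 * V 1 + V 1 ^ 2 ∈ v.asIdeal := by
    intro h
    rw [← Ideal.Quotient.eq_zero_iff_mem]
    simp only [map_add, map_mul, map_pow]
    exact h
  refine ⟨fun hm => ?_, fun hm h3f => ?_, fun hm h6 => ?_⟩
  · have h := Pr.all (p := p) W0 sW hp5 (fun π => by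
      obtain ⟨β, hβ⟩ := S.all π
      obtain ⟨i, hi, hβi⟩ := meet_two T (by rw [hcardι]; omega) β
      exact conj i hi (β i) hβi π (hβ i))
    exact ⟨omega_mem h.1, h.2⟩
  · choose β hβ using fun a : Fin 3 =>
      S.all ((Equiv.swap (0 : Fin 3) 1 * Equiv.swap 1 2) ^ (a : ℕ))
    obtain ⟨a, b, hab, i, hi, j, hj, hij⟩ := meet_many T β (by
      rw [hcardι, Fintype.card_fin]
      calc Module.finrank ℚ K < 3 * (e * f) := hm
        _ ≤ 3 * T.card := Nat.mul_le_mul_left 3 hcnt)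
    obtain ⟨r1, r2⟩ := rot_pow a b hab
    have h1 := (hβ a i).symm
    rw [hij] at h1
    have h2 := ((h1.trans (hβ b j)).comp
      ((Equiv.swap (0 : Fin 3) 1 * Equiv.swap 1 2) ^ (b : ℕ))⁻¹).symm
    rw [comp_comp_inv, comp_mul] at h2
    obtain ⟨l, hl⟩ := conj i hi j hj
      ((Equiv.swap (0 : Fin 3) 1 * Equiv.swap 1 2) ^ (a : ℕ) *
        ((Equiv.swap (0 : Fin 3) 1 * Equiv.swap 1 2) ^ (b : ℕ))⁻¹) h2
    have h4 := hl.descend hck W0 sW 3 r2 ((Nat.Prime.coprime_iff_not_dvd Nat.prime_three).2 h3f)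
    exact omega_mem (Pr.fixed3 h3 W0 sW r1 r2 h4)
  · choose β hβ using fun a : Equiv.Perm (Fin 3) => S.all a
    obtain ⟨a, b, hab, i, hi, j, hj, hij⟩ := meet_many T β (by
      rw [hcardι, Fintype.card_perm, Fintype.card_fin]
      calc Module.finrank ℚ K < 6 * (e * f) := hm
        _ ≤ Nat.factorial 3 * T.card := Nat.mul_le_mul_left 6 hcnt)
    have h1 := (hβ a i).symm
    rw [hij] at h1
    have h2 := ((h1.trans (hβ b j)).comp b⁻¹).symm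
    rw [comp_comp_inv] at h2
    have hab' : a * b⁻¹ ≠ 1 := fun h => hab (mul_inv_eq_one.1 h)
    obtain ⟨l, hl⟩ := conj i hi j hj (a * b⁻¹) h2
    have h4 := hl.descend hck W0 sW 6 (perm_six _) h6
    have key : ∀ c d : Fin 3, W c = W d → V c - V d ∈ v.asIdeal := by
      intro c d h
      rw [← Ideal.Quotient.eq_zero_iff_mem, map_sub]
      exact sub_eq_zero.2 h
    rcases Pr.fixed h3 W0 sW hab' h4 with (h | h | h) | h
    · exact Or.inl (Or.inl (key _ _ h))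
    · exact Or.inl (Or.inr (Or.inl (key _ _ h)))
    · exact Or.inl (Or.inr (Or.inr (key _ _ h)))
    · exact Or.inr (omega_mem h)

end

end Pool.Agent.N840.FC
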