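import Pool.Agent.N840.FC.Pla

/-!
# Scaling of solutions, residues of quotients, orders of powers
-/

set_option autoImplicit false

namespace Pool.Agent.N840.FC

open NumberField IsDedekindDomain Polynomial Pool.Agent.Y546.WQ

/-- scaling a triple of elements with the same valuations above `p` -/
theorem prepA {K : Type} [Field K] [NumberField K] {p : ℕ} (hp : p.Prime) {x y z : K}
    (hx : x ≠ 0) (hy : y ≠ 0) (hz : z ≠ 0)
    (hv : ∀ v : HeightOneSpectrum (𝓞 K), ((p : ℕ) : 𝓞 K) ∈ v.asIdeal →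
      v.valuation K x = v.valuation K y ∧ v.valuation K y = v.valuation K z) :
    ∃ a : K, a ≠ 0 ∧ ∃ X Y Z : 𝓞 K, algebraMap (𝓞 K) K X = a * x ∧
      algebraMap (𝓞 K) K Y = a * y ∧ algebraMap (𝓞 K) K Z = a * z ∧ X ≠ 0 ∧ Y ≠ 0 ∧ Z ≠ 0 ∧
      (∀ P : Ideal (𝓞 K), P.IsPrime → ((p : ℕ) : 𝓞 K) ∈ P → X ∉ P ∧ Y ∉ P ∧ Z ∉ P) ∧
      (∀ P : Ideal (𝓞 K), P.IsPrime → (2 : 𝓞 K) ∈ P → ¬ (X ∈ P ∧ Y ∈ P ∧ Z ∈ P)) := by
  have hp0 : p ≠ 0 := hp.ne_zero
  obtain ⟨T, hT⟩ := finite_primes (K := K) (2 * p) (by positivity)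
  obtain ⟨a, X, Y, Z, hXa, hYa, hZa, hn⟩ := scaleT (y := y) (z := z) hx T
  have hne : ∀ (P : Ideal (𝓞 K)), P.IsPrime → ((2 * p : ℕ) : 𝓞 K) ∈ P →
      ∃ h0 : P ≠ ⊥, ∀ hP : P.IsPrime, (⟨P, hP, h0⟩ : HeightOneSpectrum (𝓞 K)) ∈ T := by
    intro P hP hm
    have h0 : P ≠ ⊥ := by
      rintro rfl
      rw [Ideal.mem_bot] at hm
      have : (2 * p : ℕ) = 0 := by exact_mod_cast hm
      omega
    exact ⟨h0, fun hP' => hT _ hm⟩
  -- there is a prime above p
  obtain ⟨M, hM, hMp⟩ := exists_above (K := K) p hp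
  have hmem2p : ∀ P : Ideal (𝓞 K), ((p : ℕ) : 𝓞 K) ∈ P → ((2 * p : ℕ) : 𝓞 K) ∈ P := by
    intro P hP
    rw [Nat.cast_mul]
    exact P.mul_mem_left _ hP
  have ha : a ≠ 0 := by
    rintro rfl
    rw [zero_mul] at hXa hYa hZa
    have h1 : X = 0 := RingOfIntegers.coe_injective (by rw [map_zero]; exact hXa)
    have h2 : Y = 0 := RingOfIntegers.coe_injective (by rw [map_zero]; exact hYa)
    have h3 : Z = 0 := RingOfIntegers.coe_injective (by rw [map_zero]; exact hZa)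
    obtain ⟨h0, h4⟩ := hne M hM (hmem2p M hMp)
    apply hn _ (h4 hM)
    rw [h1, h2, h3]
    exact ⟨zero_mem _, zero_mem _, zero_mem _⟩
  have hX0 : X ≠ 0 := by
    rintro rfl
    rw [map_zero] at hXa
    exact mul_ne_zero ha hx hXa.symm
  have hY0 : Y ≠ 0 := by
    rintro rfl
    rw [map_zero] at hYa
    exact mul_ne_zero ha hy hYa.symm
  have hZ0 : Z ≠ 0 := by
    rintro rfl
    rw [map_zero] at hZa
    exact mul_ne_zero ha hz hZa.symm
  refine ⟨a, ha, X, Y, Z, hXa, hYa, hZa, hX0, hY0, hZ0, ?_, ?_⟩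
  · intro P hP hpP
    obtain ⟨h0, h4⟩ := hne P hP (hmem2p P hpP)
    have h5 := hn _ (h4 hP)
    obtain ⟨h1, h2⟩ := hv ⟨P, hP, h0⟩ hpP
    have e : ∀ (w : K) (W : 𝓞 K), algebraMap (𝓞 K) K W = a * w →
        (W ∈ P ↔ (⟨P, hP, h0⟩ : HeightOneSpectrum (𝓞 K)).valuation K a *
          (⟨P, hP, h0⟩ : HeightOneSpectrum (𝓞 K)).valuation K w < 1) := by
      intro w W hW
      rw [← map_mul, ← hW]
      exact ((⟨P, hP, h0⟩ : HeightOneSpectrum (𝓞 K)).valuation_lt_one_iff_mem (K := K) W).symm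
    have e1 : X ∈ P ↔ Y ∈ P := by rw [e x X hXa, e y Y hYa, h1]
    have e2 : Y ∈ P ↔ Z ∈ P := by rw [e y Y hYa, e z Z hZa, h2]
    change ¬ (X ∈ P ∧ Y ∈ P ∧ Z ∈ P) at h5
    tauto
  · intro P hP h2P
    have h3 : ((2 * p : ℕ) : 𝓞 K) ∈ P := by
      rw [Nat.cast_mul]
      apply P.mul_mem_right
      exact_mod_cast h2P
    obtain ⟨h0, h4⟩ := hne P hP h3
    exact hn _ (h4 hP)

section

variable {K : Type} [Field K] [NumberField K]

/-- the residue of a quotient of elements with the same valuation -/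
theorem exists_res (v : HeightOneSpectrum (𝓞 K)) {x y : K} (hy : y ≠ 0)
    (hxy : v.valuation K x = v.valuation K y) :
    ∃ r : 𝓞 K, ∀ (k : ℕ) (a : K) (X Y : 𝓞 K), algebraMap (𝓞 K) K X = a * x ^ k →
      algebraMap (𝓞 K) K Y = a * y ^ k → X - r ^ k * Y ∈ v.asIdeal := by
  have hvy : v.valuation K y ≠ 0 := (Valuation.ne_zero_iff _).2 hy
  have h1 : v.valuation K (x / y) ≤ 1 := by
    rw [map_div₀, hxy, div_self hvy]
  obtain ⟨n, d, hnd⟩ := v.exists_primeCompl_mul_eq_of_integer (x / y) h1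
  have hd : (d : 𝓞 K) ∉ v.asIdeal := d.2
  have hvm : v.asIdeal.IsMaximal := v.isMaximal
  let _ : Field (𝓞 K ⧸ v.asIdeal) := Ideal.Quotient.field v.asIdeal
  have hd0 : Ideal.Quotient.mk v.asIdeal (d : 𝓞 K) ≠ 0 := fun h =>
    hd (Ideal.Quotient.eq_zero_iff_mem.1 h)
  obtain ⟨r, hr⟩ := Ideal.Quotient.mk_surjective
    (Ideal.Quotient.mk v.asIdeal n / Ideal.Quotient.mk v.asIdeal (d : 𝓞 K))
  refine ⟨r, fun k a X Y hX hY => ?_⟩
  -- `X d ^ k = Y n ^ k`
  have e1 : X * (d : 𝓞 K) ^ k = Y * n ^ k := by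
    apply RingOfIntegers.coe_injective
    rw [map_mul, map_mul, map_pow, map_pow, hX, hY, ← hnd]
    rw [mul_pow, div_pow]
    field_simp
  have e2 := congrArg (Ideal.Quotient.mk v.asIdeal) e1
  rw [map_mul, map_mul, map_pow, map_pow] at e2
  rw [← Ideal.Quotient.eq_zero_iff_mem, map_sub, map_mul, map_pow, hr, div_pow]
  have hdk := pow_ne_zero k hd0
  field_simp
  linear_combination e2

end

/-- a primitive cube root of unity is not a power of large three-part -/
theorem no_cube {k : Type*} [Field k] [Finite k] (h3 : (3 : k) ≠ 0) {l m : k} (n : ℕ)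
    (hl : l ^ 2 + l + 1 = 0) (hm : l = m ^ n)
    (hn : ∀ j : ℕ, 3 ^ j ∣ Nat.card k - 1 → 3 ^ j ∣ n) : False := by
  have hfin : Fintype k := Fintype.ofFinite k
  have hl0 : l ≠ 0 := by
    rintro rfl
    simp at hl
  have hl1 : l ≠ 1 := by
    rintro rfl
    apply h3
    linear_combination hl
  have hl3 : l ^ 3 = 1 := by linear_combination (l - 1) * hl
  have hn0 : n ≠ 0 := by
    rintro rfl
    rw [pow_zero] at hm
    exact hl1 hm
  have hm0 : m ≠ 0 := by
    rintro rfl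
    rw [zero_pow hn0] at hm
    exact hl0 hm
  have h1 : orderOf (Units.mk0 l hl0) = 3 := by
    apply orderOf_eq_prime
    · ext
      simpa using hl3
    · intro h
      apply hl1
      have := congrArg (fun w : kˣ => (w : k)) h
      simpa using this
  have h2 : Units.mk0 l hl0 = (Units.mk0 m hm0) ^ n := by
    ext
    simpa using hm
  set o := orderOf (Units.mk0 m hm0) with ho
  have ho0 : 0 < o := orderOf_pos _
  have hod : o ∣ Nat.card k - 1 := by
    rw [← Nat.card_units]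
    exact orderOf_dvd_natCard _
  rw [h2, orderOf_pow, ← ho] at h1
  obtain ⟨j, u, hu, hou⟩ := Nat.exists_eq_pow_mul_and_not_dvd ho0.ne' 3 (by norm_num)
  have h5 : 3 ^ j ∣ n := hn j ((Dvd.intro _ hou.symm).trans hod)
  have h6 : 3 ^ j ∣ Nat.gcd o n := Nat.dvd_gcd (Dvd.intro _ hou.symm) h5
  have h7 : o = 3 * Nat.gcd o n := by
    have := Nat.div_mul_cancel (Nat.gcd_dvd_left o n)
    rw [h1] at this
    exact this.symm
  obtain ⟨g, hg⟩ := h6
  rw [hg] at h7
  apply hu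
  have h8 : 3 ^ j * u = 3 ^ j * (3 * g) := by
    rw [← hou]
    nth_rewrite 1 [h7]
    ring
  have h9 := Nat.eq_of_mul_eq_mul_left (by positivity) h8
  exact ⟨g, h9⟩

/-- minus a primitive cube root of unity, as a power -/
theorem six_dvd {k : Type*} [Field k] [Finite k] (h2 : (2 : k) ≠ 0) (h3 : (3 : k) ≠ 0) {l m : k}
    (n : ℕ) (hl : l ^ 2 + l + 1 = 0) (hm : -l = m ^ n) :
    6 ∣ (Nat.card k - 1) / Nat.gcd (Nat.card k - 1) n := by
  have hfin : Fintype k := Fintype.ofFinite k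
  have hl0 : l ≠ 0 := by
    rintro rfl
    simp at hl
  have hl1 : l ≠ 1 := by
    rintro rfl
    apply h3
    linear_combination hl
  have hl3 : l ^ 3 = 1 := by linear_combination (l - 1) * hl
  have hm0 : m ≠ 0 := by
    rintro rfl
    rcases Nat.eq_zero_or_pos n with h | h
    · rw [h, pow_zero] at hm
      have h4 : l = -1 := by linear_combination -hm
      rw [h4] at hl
      norm_num at hl
    · rw [zero_pow h.ne', neg_eq_zero] at hm
      exact hl0 hm
  set q := Nat.card k - 1 with hq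
  set M := q / Nat.gcd q n with hM
  have h1 : m ^ q = 1 := by
    rw [hq, Nat.card_eq_fintype_card]
    exact FiniteField.pow_card_sub_one_eq_one m hm0
  have h4 : (-l) ^ M = 1 := by
    obtain ⟨d, hd⟩ := Nat.gcd_dvd_right q n
    have e : n * M = q * d := by
      have e1 : Nat.gcd q n * M = q := Nat.mul_div_cancel' (Nat.gcd_dvd_left q n)
      calc n * M = (Nat.gcd q n * d) * M := by rw [← hd]
        _ = (Nat.gcd q n * M) * d := by ring
        _ = q * d := by rw [e1]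
    rw [hm, ← pow_mul, e, pow_mul, h1, one_pow]
  have h5 : 3 ∣ M := by
    have h6 : (l ^ 2) ^ M = 1 := by
      calc (l ^ 2) ^ M = ((-l) ^ 2) ^ M := by rw [neg_sq]
        _ = ((-l) ^ M) ^ 2 := by rw [← pow_mul, mul_comm, pow_mul]
        _ = 1 := by rw [h4, one_pow]
    have h7 : orderOf (l ^ 2) = 3 := by
      apply orderOf_eq_prime
      · calc (l ^ 2) ^ 3 = (l ^ 3) ^ 2 := by ring
          _ = 1 := by rw [hl3, one_pow]
      · intro h8
        apply hl1
        calc l = l ^ 3 * l := by rw [hl3, one_mul]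
          _ = (l ^ 2) ^ 2 := by ring
          _ = 1 := by rw [h8, one_pow]
    rw [← h7]
    exact orderOf_dvd_of_pow_eq_one h6
  have h8 : 2 ∣ M := by
    have h6 : (-1 : k) ^ M = 1 := by
      calc (-1 : k) ^ M = (-(l ^ 3)) ^ M := by rw [hl3]
        _ = ((-l) ^ M) ^ 3 := by
            rw [← pow_mul, mul_comm M 3, pow_mul]
            congr 1
            ring
        _ = 1 := by rw [h4, one_pow]
    have h7 : orderOf (-1 : k) = 2 := by
      apply orderOf_eq_prime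
      · norm_num
      · intro h9
        apply h2
        linear_combination -h9
    rw [← h7]
    exact orderOf_dvd_of_pow_eq_one h6
  exact Nat.Coprime.mul_dvd_of_dvd_of_dvd (by norm_num) h8 h5

end Pool.Agent.N840.FC
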