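import Pool.Agent.N840.FC.Loc
import Pool.Agent.Y546.WQ.Cas2

/-!
# Symmetric families of triples
-/

set_option autoImplicit false

namespace Pool.Agent.N840.FC

open NumberField IsDedekindDomain Polynomial Pool.Agent.Y546.WQ

/-- a family of triples with sum zero which is symmetric, as a family of points of the projective
line, under the permutations of the coordinates -/
structure Sym {ι F : Type*} [Field F] (w : ι → Fin 3 → F) : Prop where
  ne : ∀ i a, w i a ≠ 0
  sum : ∀ i, w i 0 + w i 1 + w i 2 = 0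
  s1 : ∃ β : Equiv.Perm ι, ∀ i, w (β i) 0 / w (β i) 1 = w i 1 / w i 0
  s2 : ∃ β : Equiv.Perm ι, ∀ i, w (β i) 1 / w (β i) 2 = w i 2 / w i 1

section

variable {ι F : Type*} [Field F] {w : ι → Fin 3 → F}

theorem Sym.sum_perm (h : Sym w) (i : ι) (π : Equiv.Perm (Fin 3)) :
    w i (π 0) + w i (π 1) + w i (π 2) = 0 := by
  have := Equiv.sum_comp π (w i)
  rw [Fin.sum_univ_three, Fin.sum_univ_three, h.sum] at this
  exact this

theorem Sym.swap1 (h : Sym w) : ∃ β : Equiv.Perm ι, ∀ i,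
    Pr (w (β i)) (w i ∘ (Equiv.swap 0 1 : Equiv.Perm (Fin 3))) := by
  obtain ⟨β, hβ⟩ := h.s1
  refine ⟨β, fun i => Pr.of_ratio (h.ne _) (fun a => h.ne _ _) (h.sum _) ?_ ?_⟩
  · exact h.sum_perm i (Equiv.swap 0 1)
  · simp only [Function.comp_apply]
    rw [Equiv.swap_apply_left, Equiv.swap_apply_right]
    exact hβ i

theorem Sym.swap2 (h : Sym w) : ∃ β : Equiv.Perm ι, ∀ i,
    Pr (w (β i)) (w i ∘ (Equiv.swap 1 2 : Equiv.Perm (Fin 3))) := by
  obtain ⟨β, hβ⟩ := h.s2
  refine ⟨β, fun i => Pr.of_ratio (h.ne _) (fun a => h.ne _ _) (h.sum _) ?_ ?_⟩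
  · exact h.sum_perm i (Equiv.swap 1 2)
  · have e : (Equiv.swap (1 : Fin 3) 2) 0 = 0 := by decide
    simp only [Function.comp_apply]
    rw [e, Equiv.swap_apply_left]
    have h1 := hβ i
    have n1 := h.ne (β i) 1
    have n2 := h.ne (β i) 2
    have n3 := h.ne i 1
    have n4 := h.ne i 2
    have s1 := h.sum (β i)
    have s2 := h.sum i
    have e1 : w (β i) 0 = -w (β i) 1 - w (β i) 2 := by linear_combination s1
    have e2 : w i 0 = -w i 1 - w i 2 := by linear_combination s2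
    rw [e1, e2]
    field_simp at h1 ⊢
    linear_combination h1

theorem perm_gen : ∀ π : Equiv.Perm (Fin 3),
    π = 1 ∨ π = Equiv.swap 0 1 ∨ π = Equiv.swap 1 2 ∨ π = Equiv.swap 0 1 * Equiv.swap 1 2 ∨
      π = Equiv.swap 1 2 * Equiv.swap 0 1 ∨
      π = Equiv.swap 0 1 * Equiv.swap 1 2 * Equiv.swap 0 1 := by
  decide

/-- all permutations -/
theorem Sym.all (h : Sym w) (π : Equiv.Perm (Fin 3)) :
    ∃ β : Equiv.Perm ι, ∀ i, Pr (w (β i)) (w i ∘ π) := by
  have mul : ∀ π π' : Equiv.Perm (Fin 3), (∃ β : Equiv.Perm ι, ∀ i, Pr (w (β i)) (w i ∘ π)) →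
      (∃ β : Equiv.Perm ι, ∀ i, Pr (w (β i)) (w i ∘ π')) →
      ∃ β : Equiv.Perm ι, ∀ i, Pr (w (β i)) (w i ∘ (π * π' : Equiv.Perm (Fin 3))) := by
    rintro π π' ⟨β, hβ⟩ ⟨β', hβ'⟩
    refine ⟨β' * β, fun i => ?_⟩
    have h1 := (hβ' (β i)).trans ((hβ i).comp π')
    exact h1
  rcases perm_gen π with rfl | rfl | rfl | rfl | rfl | rfl
  · exact ⟨1, fun i => Pr.refl _⟩
  · exact h.swap1
  · exact h.swap2
  · exact mul _ _ h.swap1 h.swap2
  · exact mul _ _ h.swap2 h.swap1
  · exact mul _ _ (mul _ _ h.swap1 h.swap2) h.swap1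

theorem Sym.neg_one (h : Sym w) (i : ι) : w i 0 / w i 1 + 1 ≠ 0 := by
  intro h0
  have n1 := h.ne i 1
  have n2 := h.ne i 2
  apply n2
  field_simp at h0
  linear_combination h.sum i - h0

variable [Fintype ι]

/-- odd cardinality: two coordinates are equal -/
theorem Sym.odd (h : Sym w) (h2 : (2 : F) ≠ 0) (hodd : Odd (Fintype.card ι)) :
    ∃ i, w i 0 = w i 1 := by
  classical
  obtain ⟨β, hβ⟩ := h.s1
  set r : ι → F := fun i => w i 0 / w i 1 with hr
  have hr0 : ∀ i, r i ≠ 0 := fun i => div_ne_zero (h.ne i 0) (h.ne i 1)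
  have hβ' : ∀ i, r (β i) = (r i)⁻¹ := by
    intro i
    simp only [hr]
    rw [hβ i, inv_div]
  set P : F := ∏ i, r i with hP
  have hP0 : P ≠ 0 := Finset.prod_ne_zero_iff.2 fun i _ => hr0 i
  have key : ∀ g : F → F, ∏ i, g (r i) = ∏ i, g ((r i)⁻¹) := by
    intro g
    rw [← Equiv.prod_comp β (fun i => g (r i))]
    exact Finset.prod_congr rfl fun i _ => by rw [hβ' i]
  -- `P = 1`
  have k1 := key fun t => t + 1
  have e1 : P * ∏ i, ((r i)⁻¹ + 1) = ∏ i, (r i + 1) := by
    rw [hP, ← Finset.prod_mul_distrib]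
    refine Finset.prod_congr rfl fun i _ => ?_
    have := hr0 i
    field_simp
    ring
  have n1 : ∏ i, (r i + 1) ≠ 0 := Finset.prod_ne_zero_iff.2 fun i _ => h.neg_one i
  have P1 : P = 1 := by
    rw [← k1] at e1
    have e2 : (P - 1) * ∏ i, (r i + 1) = 0 := by linear_combination e1
    exact sub_eq_zero.1 ((mul_eq_zero.1 e2).resolve_right n1)
  -- the product of `r - 1`
  have k2 := key fun t => t - 1
  have e3 : P * ∏ i, ((r i)⁻¹ - 1) = -∏ i, (r i - 1) := by
    rw [hP, ← Finset.prod_mul_distrib]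
    have : -∏ i, (r i - 1) = ∏ i, (-(r i - 1)) := by
      rw [Finset.prod_neg, Finset.card_univ, hodd.neg_one_pow]
      ring
    rw [this]
    refine Finset.prod_congr rfl fun i _ => ?_
    have := hr0 i
    field_simp
    ring
  rw [← k2, P1, one_mul] at e3
  have e4 : 2 * ∏ i, (r i - 1) = 0 := by linear_combination e3
  have e5 := (mul_eq_zero.1 e4).resolve_left h2
  obtain ⟨i, -, hi⟩ := Finset.prod_eq_zero_iff.1 e5
  refine ⟨i, ?_⟩
  have := h.ne i 1
  have h6 := sub_eq_zero.1 hi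
  simp only [hr] at h6
  field_simp at h6
  exact h6

/-- cardinality prime to three: a cube root of unity -/
theorem Sym.cube (h : Sym w) (h3 : (3 : F) ≠ 0) [IsAlgClosed F]
    (hm : ¬ 3 ∣ Fintype.card ι) : ∃ i, w i 0 ^ 2 + w i 0 * w i 1 + w i 1 ^ 2 = 0 := by
  classical
  obtain ⟨ω, hω⟩ := exists_omega F
  have hω0 : ω ≠ 0 := by
    rintro rfl
    simp at hω
  have hω1 : ω ≠ 1 := by
    rintro rfl
    apply h3
    linear_combination hω
  have hω3 : ω ^ 3 = 1 := by linear_combination (ω - 1) * hω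
  obtain ⟨β, hβ⟩ := h.s1
  obtain ⟨β', hβ'⟩ := h.s2
  set r : ι → F := fun i => w i 0 / w i 1 with hr
  have hr0 : ∀ i, r i ≠ 0 := fun i => div_ne_zero (h.ne i 0) (h.ne i 1)
  have hr1 : ∀ i, r i + 1 ≠ 0 := fun i => h.neg_one i
  have b1 : ∀ i, r (β i) = (r i)⁻¹ := by
    intro i
    simp only [hr]
    rw [hβ i, inv_div]
  have b2 : ∀ i, r (β' i) + 1 = (r i + 1)⁻¹ := by
    intro i
    have h1 := hβ' i
    have n1 := h.ne (β' i) 1
    have n2 := h.ne (β' i) 2
    have n3 := h.ne i 1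
    have n4 := h.ne i 2
    have s1 := h.sum (β' i)
    have s2 := h.sum i
    have e1 : r (β' i) + 1 = -(w (β' i) 2 / w (β' i) 1) := by
      simp only [hr]
      field_simp
      linear_combination s1
    have e2 : r i + 1 = -(w i 2 / w i 1) := by
      simp only [hr]
      field_simp
      linear_combination s2
    rw [e1, e2]
    field_simp at h1 ⊢
    linear_combination h1
  set P : F := ∏ i, r i with hP
  set R : F := ∏ i, (r i + 1) with hR
  have hP0 : P ≠ 0 := Finset.prod_ne_zero_iff.2 fun i _ => hr0 i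
  have hR0 : R ≠ 0 := Finset.prod_ne_zero_iff.2 fun i _ => hr1 i
  have key1 : ∀ g : F → F, ∏ i, g (r i) = ∏ i, g ((r i)⁻¹) := by
    intro g
    rw [← Equiv.prod_comp β (fun i => g (r i))]
    exact Finset.prod_congr rfl fun i _ => by rw [b1 i]
  have key2 : ∀ g : F → F, ∏ i, g (r i + 1) = ∏ i, g ((r i + 1)⁻¹) := by
    intro g
    rw [← Equiv.prod_comp β' (fun i => g (r i + 1))]
    exact Finset.prod_congr rfl fun i _ => by rw [b2 i]
  have P2 : P ^ 2 = 1 := by
    have := key1 fun t => t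
    rw [Finset.prod_inv_distrib, ← hP] at this
    rw [sq]
    nth_rewrite 2 [this]
    exact mul_inv_cancel₀ hP0
  have R2 : R ^ 2 = 1 := by
    have := key2 fun t => t
    rw [Finset.prod_inv_distrib, ← hR] at this
    rw [sq]
    nth_rewrite 2 [this]
    exact mul_inv_cancel₀ hR0
  set m := Fintype.card ι with hmd
  have hprod : ∀ (c : F) (g : ι → F), ∏ i, (c * g i) = c ^ m * ∏ i, g i := by
    intro c g
    rw [Finset.prod_mul_distrib, Finset.prod_const, Finset.card_univ]
  set E1 : F := ∏ i, (r i - ω) with hE1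
  set E2 : F := ∏ i, (r i - ω ^ 2) with hE2
  -- `P E1 = (-ω) ^ m E2`
  have q1 : P * E1 = (-ω) ^ m * E2 := by
    have k := key1 fun t => t - ω
    rw [← hE1] at k
    rw [k, hE2, ← hprod, hP, ← Finset.prod_mul_distrib]
    refine Finset.prod_congr rfl fun i _ => ?_
    have := hr0 i
    field_simp
    linear_combination -hω3
  -- `R E2 = ω ^ m E1`
  have q2 : R * E2 = ω ^ m * E1 := by
    have k := key2 fun t => t + ω
    have e1 : ∏ i, (r i + 1 + ω) = E2 := by
      rw [hE2]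
      refine Finset.prod_congr rfl fun i _ => ?_
      linear_combination hω
    rw [e1] at k
    rw [k, hE1, ← hprod, hR, ← Finset.prod_mul_distrib]
    refine Finset.prod_congr rfl fun i _ => ?_
    have := hr1 i
    field_simp
    linear_combination hω
  have q3 : (ω ^ (4 * m) - 1) * E1 ^ 2 = 0 := by
    have e1 : E1 ^ 2 = ω ^ (2 * m) * E2 ^ 2 := by
      have := congrArg (fun t => t ^ 2) q1
      simp only [mul_pow] at this
      rw [P2, one_mul, ← pow_mul, mul_comm m 2, pow_mul, neg_sq, ← pow_mul] at this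
      exact this
    have e2 : E2 ^ 2 = ω ^ (2 * m) * E1 ^ 2 := by
      have := congrArg (fun t => t ^ 2) q2
      simp only [mul_pow] at this
      rw [R2, one_mul, ← pow_mul, mul_comm m 2] at this
      exact this
    have e3 : ω ^ (4 * m) = ω ^ (2 * m) * ω ^ (2 * m) := by
      rw [← pow_add]
      congr 1
      ring
    rw [e3]
    rw [e2] at e1
    linear_combination -e1
  have q4 : ω ^ (4 * m) - 1 ≠ 0 := by
    intro h0
    have h1 : ω ^ (4 * m) = 1 := sub_eq_zero.1 h0
    have h2 : orderOf ω = 3 := orderOf_eq_prime hω3 hω1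
    have h4 := orderOf_dvd_of_pow_eq_one h1
    rw [h2] at h4
    exact hm (Nat.Coprime.dvd_of_dvd_mul_left (by norm_num) h4)
  have q5 : E1 = 0 := pow_eq_zero_iff (two_ne_zero) |>.1 ((mul_eq_zero.1 q3).resolve_left q4)
  obtain ⟨i, -, hi⟩ := Finset.prod_eq_zero_iff.1 q5
  refine ⟨i, ?_⟩
  have n1 := h.ne i 1
  have h6 : w i 0 = ω * w i 1 := by
    have := sub_eq_zero.1 hi
    simp only [hr] at this
    field_simp at this
    linear_combination this
  rw [h6]
  linear_combination w i 1 ^ 2 * hω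

end

end Pool.Agent.N840.FC
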